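import Pool.Agent.HX6.FD.G

/-!
# Finite determination of the Sato-Tate law in all ranks

Let `α_1, …, α_a ∈ ℤ^r` be different from zero, let `W(x) = ∏_j |e(⟨α_j, x⟩) - 1|²` for `x` in the torus
`T^r = (ℝ/ℤ)^r`, and let `b` be the integral of `W`.  In the problem `T^r` is a maximal torus of a compact
connected group `G` (the identity component of the Sato-Tate group), the `α_j` are its positive roots,
`b` is the order of its Weyl group, and `θ_{v,1}, …, θ_{v,b}` are the conjugates under the Weyl group of a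
point which represents the class of Frobenius at `v`.  The Sato-Tate law says that `θ_{v,1}, …, θ_{v,b}` are
distributed like `W(x) dx` (Weyl's integration formula).  The functions
`L(n, s) = ∏_v ∏_i (1 - e(⟨n, θ_{v,i}⟩) q_v^{-s})⁻¹`, `n ∈ ℤ^r`, are the products of powers (with integer
exponents) of the `L`-functions of the irreducible representations of `G`; the Sato-Tate law predicts that
the order of `L(n, s)` at `s = 1` is `-∫ e(⟨n, x⟩) W(x) dx`.

The theorem says that it suffices to verify this prediction for finitely many `n`, which depend only on the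
`α_j` (on the root datum of `G`), neither on the number field nor on the `θ_{v,i}`, provided that one excludes
degenerate laws, which are classified completely:

* There is a finite set `F ⊂ ℤ^r` with the following property.  If all `L(n, s)`, `n ≠ 0`, have a meromorphic
  continuation to a neighbourhood of `s = 1` (with any zeros and poles), and if for `n ∈ F` the order at `1`
  is the predicted one, then the `θ_{v,i}` are distributed like `W` times the Haar measure of a coset
  `x₀ + H` of a closed subgroup `H` with `2 x₀ ∈ H`.  If `H = T^r` this is the Sato-Tate law.  Otherwise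
  there is a relation: there are `κ ≠ 0` and a sign `σ` such that for every `δ > 0` one has
  `|e(⟨κ, θ_{v,i}⟩) - σ| < δ` for all `i`, outside of a set of primes of density zero.
* If the `θ_{v,i}` are permuted by a group of automorphisms of `T^r` which acts irreducibly on `ℚ^r` (for
  example the Weyl group of a simple group `G`), then `H = T^r` or `H` is finite.  This is an analogue, for
  laws instead of groups and for all types, of Larsen's alternative (a closed subgroup of a classical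
  group with the same fourth moment is finite or contains the classical group).
* If all `L(n, s)`, `n ≠ 0`, continue along `Re s = 1` without zeros and poles outside of `s = 1`, the law
  holds for natural density.
* The degenerate laws cannot be excluded by finitely many orders: for every finite `F` and every number
  field there are orbits `θ_{v,i} = w_i y_v` consisting of points of finite order `N`, such that all `L(n, s)`
  continue along `Re s = 1` without zeros and poles outside of `s = 1`, with the predicted order at `1` for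
  all `n ∈ F`.

The proof uses compactness, and the following rigidity of the density of Weyl: if `f ≠ 0` is a
trigonometric polynomial with integer coefficients and `|f| ≤ W`, then `f = ± e(⟨m, x⟩) W(x)`.
-/

set_option autoImplicit false

namespace Pool.Agent.Results.MP_4c4ce6_nt.FiniteDetermination

open NumberField IsDedekindDomain Filter Topology MeasureTheory UnitAddTorus

section

variable {K : Type} [Field K] [NumberField K] {r b : ℕ}

/-- The average of `φ` over the primes of `K` of norm at most `N`. -/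
noncomputable def avg (φ : HeightOneSpectrum (𝓞 K) → ℂ) (N : ℕ) : ℂ :=
  (∑ᶠ w : {w : HeightOneSpectrum (𝓞 K) // Ideal.absNorm w.asIdeal ≤ N}, φ w.1) /
    (Nat.card {w : HeightOneSpectrum (𝓞 K) // Ideal.absNorm w.asIdeal ≤ N} : ℂ)

/-- `φ` has the analytic mean value `c`: the quotient of `∑_v φ(v) q_v^{-1-ε}` by `log (1/ε)` tends to
`c` for `ε → 0`. -/
def HasMean (φ : HeightOneSpectrum (𝓞 K) → ℂ) (c : ℂ) : Prop :=
  Tendsto (fun ε : ℝ => (∑' v, φ v * ((Ideal.absNorm v.asIdeal : ℕ) : ℂ) ^ (-(1 + ε : ℂ))) /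
    (Real.log (1 / ε) : ℂ)) (𝓝[>] 0) (𝓝 c)

/-- The quotient of `∑_{v ∈ S} q_v^{-1-ε}` by `log (1/ε)`; the lower and the upper limit for `ε → 0` are
the lower and the upper analytic density of `S`. -/
noncomputable def density (S : Set (HeightOneSpectrum (𝓞 K))) (ε : ℝ) : ℝ :=
  (∑' v, S.indicator (fun v => ((Ideal.absNorm v.asIdeal : ℕ) : ℝ) ^ (-(1 + ε))) v) /
    Real.log (1 / ε)

/-- `Λ` is a meromorphic continuation of `L` to a neighbourhood of `1 + iτ`. -/
def IsContinuation (L : ℂ → ℂ) (τ : ℝ) (Λ : ℂ → ℂ) : Prop :=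
  MeromorphicAt Λ (1 + τ * Complex.I) ∧
    ∀ᶠ s in 𝓝 ((1 : ℂ) + τ * Complex.I), (1 : ℝ) < s.re → Λ s = L s

/-- `L` has a meromorphic continuation to a neighbourhood of `1 + iτ`, of order `k` at `1 + iτ`. -/
def HasOrder (L : ℂ → ℂ) (τ : ℝ) (k : ℤ) : Prop :=
  ∃ Λ, IsContinuation L τ Λ ∧ meromorphicOrderAt Λ (1 + τ * Complex.I) = k

/-- The Euler product `L(n, s) = ∏_v ∏_i (1 - e(⟨n, θ_{v,i}⟩) q_v^{-s})⁻¹`. -/
noncomputable def LFun (θ : HeightOneSpectrum (𝓞 K) → Fin b → UnitAddTorus (Fin r))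
    (n : Fin r → ℤ) (s : ℂ) : ℂ :=
  ∏' v, (∏ i, (1 - mFourier n (θ v i) * ((Ideal.absNorm v.asIdeal : ℕ) : ℂ) ^ (-s)))⁻¹

/-- All `L(n, s)`, `n ≠ 0`, have a meromorphic continuation to a neighbourhood of `s = 1`. -/
def NearOne (θ : HeightOneSpectrum (𝓞 K) → Fin b → UnitAddTorus (Fin r)) : Prop :=
  ∀ n, n ≠ 0 → ∃ Λ, IsContinuation (LFun θ n) 0 Λ

/-- All `L(n, s)`, `n ≠ 0`, have a meromorphic continuation to a neighbourhood of every point of
`Re s = 1`, without zero and pole at the points different from `1`. -/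
def AlongLine (θ : HeightOneSpectrum (𝓞 K) → Fin b → UnitAddTorus (Fin r)) : Prop :=
  ∀ n, n ≠ 0 → ∀ τ : ℝ, ∃ k : ℤ, HasOrder (LFun θ n) τ k ∧ (τ ≠ 0 → k = 0)

/-- `m` is the Haar probability measure of the closed subgroup `H` (as a measure on the torus). -/
structure IsHaar (H : AddSubgroup (UnitAddTorus (Fin r))) (m : Measure (UnitAddTorus (Fin r))) :
    Prop where
  closed : IsClosed (H : Set (UnitAddTorus (Fin r)))
  prob : IsProbabilityMeasure m
  null : m (H : Set (UnitAddTorus (Fin r)))ᶜ = 0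
  inv : ∀ x ∈ H, m.map (fun y => x + y) = m

/-- The density of Weyl `W(x) = ∏_j |e(⟨α_j, x⟩) - 1|²`. -/
noncomputable def weyl {a : ℕ} (α : Fin a → Fin r → ℤ) (x : UnitAddTorus (Fin r)) : ℝ :=
  ∏ j, ‖mFourier (α j) x - 1‖ ^ 2

/-- `L(n, s)` has at `s = 1` the order `-∫ e(⟨n, x⟩) W(x) dx`, if `n ≠ 0`. -/
def Predicted {a : ℕ} (α : Fin a → Fin r → ℤ)
    (θ : HeightOneSpectrum (𝓞 K) → Fin b → UnitAddTorus (Fin r)) (n : Fin r → ℤ) : Prop :=
  n ≠ 0 → ∃ k : ℤ, HasOrder (LFun θ n) 0 k ∧ ∫ x, mFourier n x * weyl α x = -(k : ℂ)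

/-- The families `θ_{v,1}, …, θ_{v,b}` are permuted by the automorphisms of the torus which are dual to
the automorphisms `w` in `G` of the group `ℤ^r` of characters. -/
def Permuted (G : Set ((Fin r → ℤ) ≃+ (Fin r → ℤ)))
    (θ : HeightOneSpectrum (𝓞 K) → Fin b → UnitAddTorus (Fin r)) : Prop :=
  ∀ w ∈ G, ∀ v n, ∑ i, mFourier (w n) (θ v i) = ∑ i, mFourier n (θ v i)

/-- `G` acts irreducibly on `ℚ^r`: the nonzero subgroups of `ℤ^r` stable under `G` have finite index. -/
def Irr (G : Set ((Fin r → ℤ) ≃+ (Fin r → ℤ))) : Prop :=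
  ∀ Λ : AddSubgroup (Fin r → ℤ), Λ ≠ ⊥ → (∀ w ∈ G, ∀ κ ∈ Λ, w κ ∈ Λ) → Λ.index ≠ 0

/-- The primes `v` for which some `θ_{v,i}` violates the relation `e(⟨κ, θ⟩) = σ` by at least `δ`. -/
def Far (θ : HeightOneSpectrum (𝓞 K) → Fin b → UnitAddTorus (Fin r)) (κ : Fin r → ℤ) (σ : ℤ)
    (δ : ℝ) : Set (HeightOneSpectrum (𝓞 K)) := {v | ∃ i, δ ≤ ‖mFourier κ (θ v i) - σ‖}

end

section Bridge

set_option linter.unusedSectionVars false

open Pool.Agent.TH553.ST Pool.Agent.TH553.RS Pool.Agent.W540.BE Pool.Agent.HX6.GO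
open Pool.Agent.HX6.ST (HaarOn Am)

variable {K : Type} [Field K] [NumberField K] {r b : ℕ}

theorem avg_eq (g : HeightOneSpectrum (𝓞 K) → ℂ) : avg g = mn g := by
  funext N
  have hs : ∀ v, v ∈ upto K N ↔ Ideal.absNorm v.asIdeal ≤ N := fun v => mem_upto
  let e : {v : HeightOneSpectrum (𝓞 K) // Ideal.absNorm v.asIdeal ≤ N} ≃ (upto K N) :=
    Equiv.subtypeEquivRight fun v => (hs v).symm
  have hfin : Finite {v : HeightOneSpectrum (𝓞 K) // Ideal.absNorm v.asIdeal ≤ N} :=
    Finite.of_equiv _ e.symm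
  unfold avg mn
  have h1 : (∑ᶠ v : {v : HeightOneSpectrum (𝓞 K) // Ideal.absNorm v.asIdeal ≤ N}, g v.1) =
      ∑ v ∈ upto K N, g v := by
    rw [← Finset.sum_coe_sort, ← finsum_eq_sum_of_fintype, ← finsum_comp_equiv e]
    rfl
  have h2 : Nat.card {v : HeightOneSpectrum (𝓞 K) // Ideal.absNorm v.asIdeal ≤ N} =
      (upto K N).card := by
    rw [Nat.card_congr e, Nat.card_eq_fintype_card, Fintype.card_coe]
  rw [h1, h2, Complex.real_smul, div_eq_inv_mul]
  push_cast
  rfl

theorem e1 : (1 : ℂ) + ((0 : ℝ) : ℂ) * Complex.I = 1 := by simp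

/-- the mean value for a given order -/
theorem mean_of_order {θ : HeightOneSpectrum (𝓞 K) → Fin b → UnitAddTorus (Fin r)}
    {n : Fin r → ℤ} {k : ℤ} (h : HasOrder (LFun θ n) 0 k) :
    Am (fun v => ∑ i, mFourier n (θ v i)) (-(k : ℂ)) := by
  obtain ⟨Λ, ⟨h1, h2⟩, h3⟩ := h
  rw [e1] at h1 h2 h3
  exact Pool.Agent.HX6.ST.am_ord (α := fun v i => mFourier n (θ v i))
    (fun v i => Pool.Agent.HX6.ST.norm_mF n _) h1 h2 h3

theorem exists_order {θ : HeightOneSpectrum (𝓞 K) → Fin b → UnitAddTorus (Fin r)}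
    {n : Fin r → ℤ} {τ : ℝ} (h : ∃ Λ, IsContinuation (LFun θ n) τ Λ) :
    ∃ k, HasOrder (LFun θ n) τ k := by
  obtain ⟨Λ, h1, h2⟩ := h
  obtain ⟨k, h3, -⟩ := order_LA (α := fun v i => mFourier n (θ v i)) (τ := τ)
    (fun v i => Pool.Agent.HX6.ST.norm_mF n _) h1 h2
  exact ⟨k, Λ, ⟨h1, h2⟩, h3⟩

theorem natural {θ : HeightOneSpectrum (𝓞 K) → Fin b → UnitAddTorus (Fin r)}
    (hθ : AlongLine θ) {μ : Measure (UnitAddTorus (Fin r))} [IsFiniteMeasure μ]
    (hlaw : ∀ h : C(UnitAddTorus (Fin r), ℂ), Am (fun v => ∑ i, h (θ v i)) (∫ x, h x ∂μ))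
    (h : C(UnitAddTorus (Fin r), ℂ)) :
    Tendsto (mn fun v => ∑ i, h (θ v i)) atTop (𝓝 (∫ x, h x ∂μ)) := by
  refine Pool.Agent.HX6.ST.nat_law θ μ (fun n => ?_) h
  by_cases hn : n = 0
  · have h1 : (fun v : HeightOneSpectrum (𝓞 K) => ∑ i, mFourier n (θ v i)) =
        fun _ => (b : ℂ) := by
      funext v
      rw [hn, mFourier_zero]
      simp
    have h2 := hlaw (mFourier n)
    rw [h1] at h2
    have h3 := h2.unique (Pool.Agent.HX6.ST.am_const _)
    unfold Pool.Agent.HX6.ST.fc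
    rw [h1, h3]
    exact mn_const_lim _
  · obtain ⟨k, hk, -⟩ := hθ n hn 0
    have h3 := (hlaw (mFourier n)).unique (mean_of_order hk)
    unfold Pool.Agent.HX6.ST.fc
    rw [h3]
    refine taub_ord (α := fun v i => mFourier n (θ v i))
      (fun v i => Pool.Agent.HX6.ST.norm_mF n _) (L := LFun θ n) (fun s _ => rfl) k fun τ => ?_
    by_cases hτ : τ = 0
    · obtain ⟨Λ, h4, h5⟩ := hk
      rw [hτ, if_pos rfl]
      exact ⟨Λ, h4.1, h4.2, h5⟩
    · obtain ⟨k', ⟨Λ, h4, h5⟩, h6⟩ := hθ n hn τ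
      rw [if_neg hτ]
      rw [h6 hτ] at h5
      exact ⟨Λ, h4.1, h4.2, h5⟩

end Bridge

open Pool.Agent.HX6.ST (HaarOn Am) in
theorem haar_top {r : ℕ} {m : Measure (UnitAddTorus (Fin r))} (hm : HaarOn ⊤ m)
    {f : UnitAddTorus (Fin r) → ℂ} (hf : Continuous f) (x₀ : UnitAddTorus (Fin r)) :
    ∫ y, f (x₀ + y) ∂m = ∫ x, f x := by
  classical
  have := hm.prob
  have hv := (Pool.Agent.HX6.FD.haar_volume (r := r))
  have := hv.prob
  have h1 := Pool.Agent.HX6.ST.integral_eq_of_fc (Pool.Agent.HX6.ST.chars_mF (d := Fin r)) m volume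
    (fun n => by
      unfold Pool.Agent.HX6.ST.fc
      rw [Pool.Agent.HX6.FD.haar_int hm, Pool.Agent.HX6.FD.haar_int hv])
    ⟨fun y => f (x₀ + y), hf.comp (continuous_const.add continuous_id)⟩
  have h2 : ∫ y, f (x₀ + y) ∂m = ∫ y, f (x₀ + y) := h1
  rw [h2]
  exact integral_add_left_eq_self f x₀

/-- **Finite determination of the Sato-Tate law.**  Let `α_1, …, α_a ∈ ℤ^r` be different from zero and
`W(x) = ∏_j |e(⟨α_j, x⟩) - 1|²`.  The integral `b` of `W` is a positive integer.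

(I) There is a finite set `F ⊂ ℤ^r`, which depends only on the `α_j`, such that for all number fields `K` and
all `θ_{v,i} ∈ (ℝ/ℤ)^r`, `1 ≤ i ≤ b`, for the primes `v` of `K`: if all `L(n, s)`, `n ≠ 0`, have a
meromorphic continuation to a neighbourhood of `s = 1` and the order at `1` is `-∫ e(⟨n, x⟩) W(x) dx` for
`n ∈ F`, then there are a closed subgroup `H` with Haar probability measure `m` and a point `x₀` with
`2 x₀ ∈ H`, such that `∑_i h(θ_{v,i})` has the analytic mean value `∫ h(x₀ + y) W(x₀ + y) dm(y)` for all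
continuous `h`; this is `∫ h(x) W(x) dx` (the law of Sato-Tate) if `H` is the whole torus.  It is the limit of
the averages over `q_v ≤ N` if all `L(n, s)`, `n ≠ 0`, continue along `Re s = 1` without zeros and poles
outside of `1`.  If `H` is not the whole torus there are `κ ≠ 0` and `σ = ±1` such that for every `δ > 0` the
set of the `v` with `|e(⟨κ, θ_{v,i}⟩) - σ| ≥ δ` for some `i` has density zero.  If the `θ_{v,i}` are permuted by
automorphisms which act irreducibly on `ℚ^r`, then `H` is the whole torus or finite.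

(II) For every finite set `F ⊂ ℤ^r`, every number field `K` and all automorphisms `w_1, …, w_b` of `ℤ^r` which
preserve the Fourier coefficients of `W` there are points `y_v` of order dividing a fixed `N > 0`, such that
all `L(n, s)`, `n ≠ 0`, of the orbits `θ_{v,i} = w_i y_v` (that is `e(⟨n, θ_{v,i}⟩) = e(⟨w_i n, y_v⟩)`) continue
along `Re s = 1` without zeros and poles outside of `1`, and for `n ∈ F` the order at `1` is
`-∫ e(⟨n, x⟩) W(x) dx`. -/
theorem result (r a : ℕ) (α : Fin a → Fin r → ℤ) (hα : ∀ j, α j ≠ 0) :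
    ∃ b : ℕ, 0 < b ∧ ∫ x, weyl α x = b ∧
      (∃ F : Finset (Fin r → ℤ), ∀ (K : Type) [Field K] [NumberField K]
        (θ : HeightOneSpectrum (𝓞 K) → Fin b → UnitAddTorus (Fin r)),
        NearOne θ → (∀ n ∈ F, Predicted α θ n) →
        ∃ (H : AddSubgroup (UnitAddTorus (Fin r))) (m : Measure (UnitAddTorus (Fin r)))
          (x₀ : UnitAddTorus (Fin r)), IsHaar H m ∧ x₀ + x₀ ∈ H ∧
          (∀ h : UnitAddTorus (Fin r) → ℂ, Continuous h →
            HasMean (fun v => ∑ i, h (θ v i)) (∫ y, h (x₀ + y) * weyl α (x₀ + y) ∂m)) ∧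
          (H = ⊤ → ∀ h : UnitAddTorus (Fin r) → ℂ, Continuous h →
            ∫ y, h (x₀ + y) * weyl α (x₀ + y) ∂m = ∫ x, h x * weyl α x) ∧
          (AlongLine θ → ∀ h : UnitAddTorus (Fin r) → ℂ, Continuous h →
            Tendsto (avg fun v => ∑ i, h (θ v i)) atTop
              (𝓝 (∫ y, h (x₀ + y) * weyl α (x₀ + y) ∂m))) ∧
          (H ≠ ⊤ → ∃ (κ : Fin r → ℤ) (σ : ℤ), κ ≠ 0 ∧ (σ = 1 ∨ σ = -1) ∧
            ∀ δ : ℝ, 0 < δ → Tendsto (density (Far θ κ σ δ)) (𝓝[>] 0) (𝓝 0)) ∧
          (∀ G : Set ((Fin r → ℤ) ≃+ (Fin r → ℤ)), Irr G → Permuted G θ →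
            H = ⊤ ∨ (H : Set (UnitAddTorus (Fin r))).Finite)) ∧
      (∀ (F : Finset (Fin r → ℤ)) (K : Type) [Field K] [NumberField K]
        (w : Fin b → ((Fin r → ℤ) ≃+ (Fin r → ℤ))),
        (∀ i n, ∫ x, mFourier (w i n) x * (weyl α x : ℂ) = ∫ x, mFourier n x * (weyl α x : ℂ)) →
        ∃ (N : ℕ) (y : HeightOneSpectrum (𝓞 K) → UnitAddTorus (Fin r))
          (θ : HeightOneSpectrum (𝓞 K) → Fin b → UnitAddTorus (Fin r)),
          0 < N ∧ (∀ v, N • y v = 0) ∧
          (∀ v i n, mFourier n (θ v i) = mFourier (w i n) (y v)) ∧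
          AlongLine θ ∧ ∀ n ∈ F, Predicted α θ n) := by
  classical
  obtain ⟨P, hP⟩ := Pool.Agent.HX6.FD.exists_weyl α
  have hv := (Pool.Agent.HX6.FD.haar_volume (r := r))
  have hPpos := Pool.Agent.HX6.FD.P_pos hv hα hP
  have hPint : ∀ n, ∫ x, mFourier n x * (weyl α x : ℂ) = P n := fun n =>
    Pool.Agent.HX6.FD.P_int hv hP n
  obtain ⟨b, hb⟩ := Int.eq_ofNat_of_zero_le hPpos.le
  have hb0 : 0 < b := by omega
  refine ⟨b, hb0, ?_, ?_, ?_⟩
  · have h1 := Pool.Agent.HX6.FD.P_zero hv hP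
    rw [hb] at h1
    push_cast at h1
    exact h1
  · obtain ⟨F, hF⟩ := Pool.Agent.HX6.FD.classify α hα hv Pool.Agent.HX6.FD.full_volume P hP
    refine ⟨F, ?_⟩
    intro K _ _ θ hθ hord
    obtain ⟨μ, h1, h2, h3, h4⟩ := Pool.Agent.HX6.ST.law_of_near θ (fun n hn => by
      obtain ⟨Λ, h1, h2⟩ := hθ n hn
      rw [e1] at h1 h2
      exact ⟨Λ, h1, h2⟩)
    obtain ⟨h5, x₀, h6, h7⟩ := hF μ h1 h2 (fun n hn => by
      by_cases h0 : n = 0
      · rw [h0, h3, hb]
        push_cast
        rfl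
      · obtain ⟨k, hk, h5⟩ := hord n hn h0
        rw [hPint] at h5
        rw [h5]
        exact (h4 (mFourier n)).unique (mean_of_order hk))
    obtain ⟨m, hm, -⟩ := Pool.Agent.HX6.ST.exists_haarOn
      (Pool.Agent.HX6.ST.isClosed_ann (Pool.Agent.HX6.FD.relG μ))
    refine ⟨Pool.Agent.HX6.ST.ann (Pool.Agent.HX6.FD.relG μ), m, x₀,
      ⟨Pool.Agent.HX6.ST.isClosed_ann _, hm.prob, hm.null, hm.inv⟩, ?_, ?_, ?_, ?_, ?_, ?_⟩
    · intro κ hκ
      rw [Pool.Agent.HX6.ST.mF_vadd]
      rcases (h6 κ hκ).1 with h8 | h8 <;> rw [h8] <;> norm_num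
    · intro h hh
      have h8 := h4 ⟨h, hh⟩
      rw [h7 m hm] at h8
      exact h8
    · intro htop h hh
      rw [htop] at hm
      exact haar_top hm (f := fun x => h x * (weyl α x : ℂ))
        (hh.mul (Complex.continuous_ofReal.comp (Pool.Agent.HX6.FD.continuous_weyl α))) x₀
    · intro hal h hh
      rw [avg_eq]
      have h8 := natural hal h4 ⟨h, hh⟩
      rw [h7 m hm] at h8
      exact h8
    · intro htop
      have h8 : Pool.Agent.HX6.FD.relG μ ≠ ⊥ := by
        intro h9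
        apply htop
        rw [h9, Pool.Agent.HX6.FD.ann_bot]
      obtain ⟨⟨κ, hκ⟩, hne⟩ := (Pool.Agent.HX6.FD.relG μ).ne_bot_iff_exists_ne_zero.1 h8
      have hκ0 : κ ≠ 0 := fun h => hne (Subtype.ext h)
      obtain ⟨σ, hσ, h9⟩ := hκ
      refine ⟨κ, σ, hκ0, hσ, fun δ hδ => ?_⟩
      refine Pool.Agent.HX6.FD.zero_dens θ h4 ?_ h9 hδ
      rw [Complex.norm_intCast]
      rcases hσ with rfl | rfl <;> norm_num
    · intro G hG hperm
      by_cases h8 : Pool.Agent.HX6.FD.relG μ = ⊥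
      · left
        rw [h8, Pool.Agent.HX6.FD.ann_bot]
      · right
        refine Pool.Agent.HX6.FD.ann_finite (hG _ h8 fun w hw κ hκ => ?_)
        rw [Pool.Agent.HX6.FD.mem_relG] at hκ ⊢
        obtain ⟨σ, hσ, h9⟩ := hκ
        refine ⟨σ, hσ, ?_⟩
        rw [← h9]
        have h10 := h4 (mFourier (w κ))
        have h11 : (fun v : HeightOneSpectrum (𝓞 K) => ∑ i, mFourier (w κ) (θ v i)) =
            fun v => ∑ i, mFourier κ (θ v i) := by
          funext v
          exact hperm w hw v κ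
        rw [h11] at h10
        exact h10.unique (h4 (mFourier κ))
  · intro F K _ _ w hw
    have hw' : ∀ i n, P (w i n) = P n := by
      intro i n
      have h1 := hw i n
      rw [hPint, hPint] at h1
      exact_mod_cast h1
    obtain ⟨N, y, c, h1, h2, h3, h4⟩ := Pool.Agent.HX6.FD.example_law (K := K) hP
      (Pool.Agent.HX6.FD.weyl_symm hv hP) hb0 hb F w hw'
    refine ⟨N, y, fun v i => Pool.Agent.HX6.FD.dual (w i).toAddMonoidHom (y v), h1, h2,
      fun v i n => Pool.Agent.HX6.FD.mF_dual _ _ _, ?_, ?_⟩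
    · intro n _ τ
      obtain ⟨Λ, h5, h6, h7⟩ := h4 n τ
      exact ⟨if τ = 0 then -c n else 0, ⟨Λ, ⟨h5, h6⟩, by rw [h7]⟩, fun hτ => by rw [if_neg hτ]⟩
    · intro n hn _
      obtain ⟨Λ, h5, h6, h7⟩ := h4 n 0
      rw [if_pos rfl] at h7
      refine ⟨-c n, ⟨Λ, ⟨h5, h6⟩, h7⟩, ?_⟩
      rw [hPint, h3 n hn]
      push_cast
      ring

end Pool.Agent.Results.MP_4c4ce6_nt.FiniteDetermination
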