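import Pool.Agent.HX6.GO.Gm

/-!
# The lemma of Goursat and Ribet for Frobenius laws

Let `A_i`, `i ∈ I`, be finitely many abelian varieties over a number field `K` (or motives, or families of
`ℓ`-adic representations as in the problem) with Sato-Tate groups `G_i` and normalized Frobenius elements
`x_i(v) ∈ G_i` (any elements at the finitely many exceptional primes; this changes the `L`-functions below
by finitely many factors without zeros and poles in `Re s > 0`).  Suppose that the Sato-Tate law is known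
for each `A_i`.  What is the joint law, that is the law of the elements `(x_i(v))_i` of `∏ G_i`?  The
Sato-Tate group of the product of the `A_i` is a closed subgroup of `∏ G_i` with surjective projections to
the `G_i`; by the lemma of Goursat it is described, for two factors, by an isomorphism `G / N ≃ H / M`, and
by the lemma of Ribet it is the whole product if this is so for every two factors and if the groups are
equal to their commutator subgroups.

The theorem has the same conclusions for the laws; here `L(π ⊠ ρ, s)` is assumed to be meromorphic only.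

* Pairs, at `s = 1`: if all `L(π ⊠ ρ, s)` with nontrivial irreducible representations `π` of `G` and `ρ`
  of `H` have meromorphic continuations to neighbourhoods of `s = 1`, then their orders at `1` are `0`, `1`
  or `-1`, and there are closed normal subgroups `N` of `G` and `M` of `H`, such that the relation
  `order ≠ 0` is a bijection between the characters of the nontrivial irreducible representations of
  `G / N` and those of `H / M`, which preserves dimensions, laws of absolute values and all multiplicities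
  of tensor products; and corresponding characters agree at almost all primes up to sign and conjugation.
* Pairs, on `Re s = 1`: if there are continuations to neighbourhoods of all points of `Re s = 1`, then
  zeros and poles in points `1 + iτ`, `τ ≠ 0`, can occur only if they occur for one-dimensional
  representations of infinite order, and without these there is a joint law for natural density.
  The two families are independent if and only if all orders at `s = 1` are `0`.
* Finite families: for finitely many families pairwise independence implies independence, and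
  therefore the family is independent if and only if for any two members all orders at `s = 1` are zero.
  Here the `L`-functions of the products of three and more representations are needed, but zeros and
  poles on `Re s = 1` are excluded only for one-dimensional representations (if at most two of the groups
  have nontrivial one-dimensional representations, there is nothing to exclude).
-/

set_option autoImplicit false

namespace Pool.Agent.Results.MP_4c4ce6_nt.GoursatRibetForLaws

open NumberField IsDedekindDomain Filter Topology MeasureTheory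
open scoped ComplexConjugate Kronecker

section

variable {K : Type} [Field K] [NumberField K]

/-- The average of `φ` over the primes of `K` of norm at most `N`. -/
noncomputable def avg (φ : HeightOneSpectrum (𝓞 K) → ℂ) (N : ℕ) : ℂ :=
  (∑ᶠ w : {w : HeightOneSpectrum (𝓞 K) // Ideal.absNorm w.asIdeal ≤ N}, φ w.1) /
    (Nat.card {w : HeightOneSpectrum (𝓞 K) // Ideal.absNorm w.asIdeal ≤ N} : ℂ)

/-- The set `S` of primes has analytic density zero:
`∑_{v ∈ S} q_v^{-1-ε} / log (1/ε)` tends to zero for `ε → 0`. -/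
def DensityZero (S : Set (HeightOneSpectrum (𝓞 K))) : Prop :=
  Tendsto (fun ε : ℝ => (∑' v, S.indicator
    (fun v => ((Ideal.absNorm v.asIdeal : ℕ) : ℝ) ^ (-(1 + ε))) v) / Real.log (1 / ε))
    (𝓝[>] 0) (𝓝 0)

/-- `Λ` is a meromorphic continuation of `L` to a neighbourhood of `1 + iτ`. -/
def IsContinuation (L : ℂ → ℂ) (τ : ℝ) (Λ : ℂ → ℂ) : Prop :=
  MeromorphicAt Λ (1 + τ * Complex.I) ∧
    ∀ᶠ s in 𝓝 ((1 : ℂ) + τ * Complex.I), (1 : ℝ) < s.re → Λ s = L s

/-- `L` has a meromorphic continuation to a neighbourhood of `1 + iτ`, of order `k` at `1 + iτ`. -/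
def HasOrder (L : ℂ → ℂ) (τ : ℝ) (k : ℤ) : Prop :=
  ∃ Λ, IsContinuation L τ Λ ∧ meromorphicOrderAt Λ (1 + τ * Complex.I) = k

end

/-- `f` is a continuous class function. -/
structure IsClass {G : Type} [Group G] [TopologicalSpace G] (f : G → ℂ) : Prop where
  continuous : Continuous f
  invariant : ∀ g h, f (h * g * h⁻¹) = f g

/-- The classes of the `x v` are equidistributed for `μ`. -/
def Equidistributed {K : Type} [Field K] [NumberField K] {G : Type} [Group G] [TopologicalSpace G]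
    [MeasurableSpace G] (x : HeightOneSpectrum (𝓞 K) → G) (μ : Measure G) : Prop :=
  ∀ f : G → ℂ, IsClass f → Tendsto (avg fun v => f (x v)) atTop (𝓝 (∫ g, f g ∂μ))

section

variable {G : Type} [Group G] {n : ℕ}

/-- The character of `π`. -/
noncomputable def tr (π : G →* Matrix.unitaryGroup (Fin n) ℂ) (g : G) : ℂ :=
  (π g : Matrix (Fin n) (Fin n) ℂ).trace

/-- The unitary representation `π` is continuous and irreducible: its dimension is not zero, and only the
scalars commute with all matrices `π g`. -/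
structure IsIrreducible [TopologicalSpace G]
    (π : G →* Matrix.unitaryGroup (Fin n) ℂ) : Prop where
  continuous : Continuous π
  schur : ∀ A : Matrix (Fin n) (Fin n) ℂ, (∀ g, (π g : Matrix (Fin n) (Fin n) ℂ) * A = A * π g) →
    ∃ c : ℂ, A = c • (1 : Matrix (Fin n) (Fin n) ℂ)
  dim : n ≠ 0

/-- `π` is an irreducible representation and not trivial. -/
def NIrr [TopologicalSpace G] (π : G →* Matrix.unitaryGroup (Fin n) ℂ) : Prop :=
  IsIrreducible π ∧ ∃ g, π g ≠ 1

/-- A one-dimensional representation of infinite order. -/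
def InfiniteOrder (σ : G →* Matrix.unitaryGroup (Fin 1) ℂ) : Prop :=
  ∀ e : ℕ, 0 < e → ∃ g, σ g ^ e ≠ 1

end

section

variable {K : Type} [Field K] [NumberField K]
variable {G : Type} [Group G] {n : ℕ} {H : Type} [Group H] {m : ℕ}

/-- The Euler product `L(π ⊠ ρ, s) = ∏_v det(1 - q_v^{-s} π(x_v) ⊗ ρ(y_v))⁻¹`. -/
noncomputable def LPair (π : G →* Matrix.unitaryGroup (Fin n) ℂ)
    (x : HeightOneSpectrum (𝓞 K) → G) (ρ : H →* Matrix.unitaryGroup (Fin m) ℂ)
    (y : HeightOneSpectrum (𝓞 K) → H) (s : ℂ) : ℂ :=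
  ∏' v : HeightOneSpectrum (𝓞 K), (Matrix.det (1 - ((Ideal.absNorm v.asIdeal : ℂ) ^ (-s)) •
    ((π (x v) : Matrix (Fin n) (Fin n) ℂ) ⊗ₖ (ρ (y v) : Matrix (Fin m) (Fin m) ℂ))))⁻¹

/-- `π` and `ρ` are linked: `L(π ⊠ ρ, s)` is meromorphic near `s = 1`, with a zero or a pole at `1`. -/
def Linked (π : G →* Matrix.unitaryGroup (Fin n) ℂ)
    (x : HeightOneSpectrum (𝓞 K) → G) (ρ : H →* Matrix.unitaryGroup (Fin m) ℂ)
    (y : HeightOneSpectrum (𝓞 K) → H) : Prop :=
  ∃ k : ℤ, k ≠ 0 ∧ HasOrder (LPair π x ρ y) 0 k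

variable [TopologicalSpace G] [TopologicalSpace H]

/-- All `L(π ⊠ ρ, s)` with nontrivial irreducible `π`, `ρ` have a meromorphic continuation to a
neighbourhood of `s = 1`. -/
def NearOne (x : HeightOneSpectrum (𝓞 K) → G) (y : HeightOneSpectrum (𝓞 K) → H) : Prop :=
  ∀ (n m : ℕ) (π : G →* Matrix.unitaryGroup (Fin n) ℂ) (ρ : H →* Matrix.unitaryGroup (Fin m) ℂ),
    NIrr π → NIrr ρ → ∃ Λ, IsContinuation (LPair π x ρ y) 0 Λ

/-- All `L(π ⊠ ρ, s)` with nontrivial irreducible `π`, `ρ` have a meromorphic continuation to a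
neighbourhood of every point of `Re s = 1`, without zero and pole at `1 + iτ`, `τ ≠ 0`, if `π` and `ρ` are
one-dimensional of infinite order. -/
structure AlongLine (x : HeightOneSpectrum (𝓞 K) → G) (y : HeightOneSpectrum (𝓞 K) → H) :
    Prop where
  continuation : ∀ (n m : ℕ) (π : G →* Matrix.unitaryGroup (Fin n) ℂ)
    (ρ : H →* Matrix.unitaryGroup (Fin m) ℂ), NIrr π → NIrr ρ →
    ∀ τ : ℝ, ∃ Λ, IsContinuation (LPair π x ρ y) τ Λ
  oneDim : ∀ (σ : G →* Matrix.unitaryGroup (Fin 1) ℂ) (σ' : H →* Matrix.unitaryGroup (Fin 1) ℂ),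
    NIrr σ → NIrr σ' → InfiniteOrder σ → InfiniteOrder σ' →
    ∀ τ : ℝ, τ ≠ 0 → HasOrder (LPair σ x σ' y) τ 0

end

section

variable {K : Type} [Field K] [NumberField K]
variable {I : Type} [Fintype I] [DecidableEq I] {G : I → Type} [∀ i, Group (G i)]

/-- The tensor product of the matrices `A i`. -/
noncomputable def tensor {n : I → ℕ} (A : ∀ i, Matrix (Fin (n i)) (Fin (n i)) ℂ) :
    Matrix (∀ i, Fin (n i)) (∀ i, Fin (n i)) ℂ := Matrix.of fun f f' => ∏ i, A i (f i) (f' i)

/-- The Euler product `∏_v det(1 - q_v^{-s} ⊗_i π_i(x_i(v)))⁻¹`. -/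
noncomputable def LFam {n : I → ℕ} (π : ∀ i, G i →* Matrix.unitaryGroup (Fin (n i)) ℂ)
    (x : ∀ i, HeightOneSpectrum (𝓞 K) → G i) (s : ℂ) : ℂ :=
  ∏' v : HeightOneSpectrum (𝓞 K), (Matrix.det (1 - ((Ideal.absNorm v.asIdeal : ℂ) ^ (-s)) •
    tensor fun i => (π i (x i v) : Matrix (Fin (n i)) (Fin (n i)) ℂ)))⁻¹

variable [∀ i, TopologicalSpace (G i)]

/-- The `L`-functions of the families of irreducible representations `π i` with at least three
nontrivial members have meromorphic continuations to neighbourhoods of all points of `Re s = 1`, without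
zeros and poles there if all `π i` are one-dimensional. -/
structure FamAlongLine (x : ∀ i, HeightOneSpectrum (𝓞 K) → G i) : Prop where
  continuation : ∀ (n : I → ℕ) (π : ∀ i, G i →* Matrix.unitaryGroup (Fin (n i)) ℂ),
    (∀ i, IsIrreducible (π i)) → 3 ≤ Nat.card {i // ∃ g, π i g ≠ 1} →
    ∀ τ : ℝ, ∃ Λ, IsContinuation (LFam π x) τ Λ
  oneDim : ∀ π : ∀ i, G i →* Matrix.unitaryGroup (Fin 1) ℂ,
    (∀ i, Continuous (π i)) → 3 ≤ Nat.card {i // ∃ g, π i g ≠ 1} →
    ∀ τ : ℝ, HasOrder (LFam (n := fun _ => 1) π x) τ 0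

end

section Bridge

set_option linter.unusedSectionVars false

open Pool.Agent.TH553.ST Pool.Agent.TH553.RS Pool.Agent.W540.BE Pool.Agent.HX6.GO

section

variable {K : Type} [Field K] [NumberField K]

theorem avg_eq (g : HeightOneSpectrum (𝓞 K) → ℂ) : avg g = mn g := by
  funext N
  have hs : ∀ v, v ∈ upto K N ↔ Ideal.absNorm v.asIdeal ≤ N := fun v => mem_upto
  let e : {v : HeightOneSpectrum (𝓞 K) // Ideal.absNorm v.asIdeal ≤ N} ≃ (upto K N) :=
    Equiv.subtypeEquivRight fun v => (hs v).symm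
  have hfin : Finite {v : HeightOneSpectrum (𝓞 K) // Ideal.absNorm v.asIdeal ≤ N} :=
    Finite.of_equiv _ e.symm
  unfold avg mn
  have h1 : (∑ᶠ v : {v : HeightOneSpectrum (𝓞 K) // Ideal.absNorm v.asIdeal ≤ N}, g v.1) =
      ∑ v ∈ upto K N, g v := by
    rw [← Finset.sum_coe_sort, ← finsum_eq_sum_of_fintype, ← finsum_comp_equiv e]
    rfl
  have h2 : Nat.card {v : HeightOneSpectrum (𝓞 K) // Ideal.absNorm v.asIdeal ≤ N} =
      (upto K N).card := by
    rw [Nat.card_congr e, Nat.card_eq_fintype_card, Fintype.card_coe]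
  rw [h1, h2, Complex.real_smul, div_eq_inv_mul]
  push_cast
  rfl

end

section

variable {K : Type} [Field K] [NumberField K]
variable {G : Type} [Group G] [TopologicalSpace G] [IsTopologicalGroup G] [CompactSpace G]
  [MeasurableSpace G] [BorelSpace G] {μ : Measure G} [IsProbabilityMeasure μ] [μ.IsHaarMeasure]
variable {H : Type} [Group H] [TopologicalSpace H] [IsTopologicalGroup H] [CompactSpace H]
  [MeasurableSpace H] [BorelSpace H] {ν : Measure H} [IsProbabilityMeasure ν] [ν.IsHaarMeasure]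
  {x : HeightOneSpectrum (𝓞 K) → G} {y : HeightOneSpectrum (𝓞 K) → H}
variable {n m : ℕ} {π : G →* Matrix.unitaryGroup (Fin n) ℂ}
  {ρ : H →* Matrix.unitaryGroup (Fin m) ℂ}

theorem law_of (h : Equidistributed x μ) : Law x μ := by
  intro f hf hcl
  have h1 := h (fun g => (f g : ℂ)) ⟨Complex.continuous_ofReal.comp hf, fun g h => by rw [hcl]⟩
  have h0 : ∫ g, (f g : ℂ) ∂μ = ((∫ g, f g ∂μ : ℝ) : ℂ) := integral_ofReal
  rw [avg_eq, h0] at h1
  have h2 := (Complex.continuous_re.tendsto _).comp h1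
  refine h2.congr fun N => ?_
  simp only [Function.comp]
  rw [re_mn]
  rfl

omit [IsTopologicalGroup G] [CompactSpace G] [MeasurableSpace G] [BorelSpace G] in
theorem ni_iff : NIrr π ↔ NI π :=
  ⟨fun h => ⟨h.1.continuous, h.1.schur, h.2⟩, fun h => ⟨⟨h.cont, h.schur, h.pos⟩, h.nt⟩⟩

theorem ct_iff {τ : ℝ} {Λ : ℂ → ℂ} : IsContinuation (LPair π x ρ y) τ Λ ↔ Ct x y π ρ τ Λ := Iff.rfl

/-- orders -/
theorem order_iff {τ : ℝ} (h : ∃ Λ, IsContinuation (LPair π x ρ y) τ Λ) (k : ℤ) :
    HasOrder (LPair π x ρ y) τ k ↔ Ord x y π ρ τ k := by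
  constructor
  · rintro ⟨Λ, h1, h2⟩
    obtain ⟨l, h3, h4⟩ := (ct_iff.1 h1).ord
    have h5 : l = k := by
      rw [h3] at h2
      exact_mod_cast h2
    rwa [h5] at h4
  · intro h1
    obtain ⟨Λ, h2⟩ := h
    obtain ⟨l, h3, h4⟩ := (ct_iff.1 h2).ord
    refine ⟨Λ, h2, ?_⟩
    rw [h3, h1.unique h4]

theorem ord_of {τ : ℝ} {k : ℤ} (h : HasOrder (LPair π x ρ y) τ k) : Ord x y π ρ τ k := by
  obtain ⟨Λ, h1, h2⟩ := h
  exact (order_iff ⟨Λ, h1⟩ k).1 ⟨Λ, h1, h2⟩

theorem linked_iff (h : ∃ Λ, IsContinuation (LPair π x ρ y) 0 Λ) :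
    Linked π x ρ y ↔ Lk x y π ρ := by
  obtain ⟨Λ, h1⟩ := h
  obtain ⟨l, h3, h4⟩ := (ct_iff.1 h1).ord
  rw [((ct_iff.1 h1).lk h3).2]
  constructor
  · rintro ⟨k, hk0, hk⟩
    rwa [h4.unique (ord_of hk)]
  · intro h5
    exact ⟨l, h5, Λ, h1, h3⟩

theorem sit_of' (hx : Equidistributed x μ) (hy : Equidistributed y ν) (h : NearOne x y) :
    Sit x y μ ν :=
  sit_of (law_of hx) (law_of hy) fun n m π ρ h1 h2 => h n m π ρ (ni_iff.2 h1) (ni_iff.2 h2)

theorem line_of (hx : Equidistributed x μ) (hy : Equidistributed y ν) (h : AlongLine x y) :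
    Line x y μ ν where
  lx := law_of hx
  ly := law_of hy
  ct := fun n m π ρ h1 h2 τ => h.continuation n m π ρ (ni_iff.2 h1) (ni_iff.2 h2) τ
  one := fun σ σ' h1 h2 h3 h4 τ hτ => ord_of (h.oneDim σ σ' (ni_iff.2 h1) (ni_iff.2 h2) h3 h4 τ hτ)

omit [IsTopologicalGroup G] [CompactSpace G] [MeasurableSpace G] [BorelSpace G]
  [IsTopologicalGroup H] [CompactSpace H] [MeasurableSpace H] [BorelSpace H] in
theorem near_of (h : AlongLine x y) : NearOne x y := fun n m π ρ h1 h2 =>
  h.continuation n m π ρ h1 h2 0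

end

section

variable {K : Type} [Field K] [NumberField K]
variable {G : Type} [Group G] [TopologicalSpace G] [IsTopologicalGroup G] [CompactSpace G]
  [T2Space G] [MeasurableSpace G] [BorelSpace G] {μ : Measure G} [IsProbabilityMeasure μ]
  [μ.IsHaarMeasure]
variable {H : Type} [Group H] [TopologicalSpace H] [IsTopologicalGroup H] [CompactSpace H]
  [T2Space H] [MeasurableSpace H] [BorelSpace H] {ν : Measure H} [IsProbabilityMeasure ν]
  [ν.IsHaarMeasure] {x : HeightOneSpectrum (𝓞 K) → G} {y : HeightOneSpectrum (𝓞 K) → H}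
variable {n m : ℕ} {π : G →* Matrix.unitaryGroup (Fin n) ℂ}
  {ρ : H →* Matrix.unitaryGroup (Fin m) ℂ}

theorem density_of (hx : Equidistributed x μ) (hy : Equidistributed y ν) (h1 : NIrr π)
    (h2 : NIrr ρ) {k : ℤ} (hk : k ≠ 0) (ho : HasOrder (LPair π x ρ y) 0 k) {δ : ℝ} (hδ : 0 < δ) :
    DensityZero {v | δ < ‖tr π (x v) + k * conj (tr ρ (y v))‖} := by
  have h3 := (pair_rigid (law_of hx) (law_of hy) h1.1.continuous h1.1.schur h2.1.continuous
    h2.1.schur (ord_of ho) hk).2.2 δ hδ
  unfold DensityZero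
  refine h3.congr fun ε => ?_
  congr 1
  unfold EP
  refine tsum_congr fun v => ?_
  have e : ‖df (-(k : ℝ)) (tc π x 0) (tc ρ y 0) v‖ = ‖tr π (x v) + k * conj (tr ρ (y v))‖ := by
    unfold df
    rw [tc_zero, tc_zero]
    push_cast
    rw [neg_mul, sub_neg_eq_add]
    rfl
  by_cases hv : δ < ‖tr π (x v) + k * conj (tr ρ (y v))‖
  · have hv' : δ < ‖df (-(k : ℝ)) (tc π x 0) (tc ρ y 0) v‖ := by rwa [e]
    rw [Set.indicator_of_mem (by exact hv'), Set.indicator_of_mem (by exact hv), one_mul]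
    rfl
  · have hv' : ¬ δ < ‖df (-(k : ℝ)) (tc π x 0) (tc ρ y 0) v‖ := by rwa [e]
    rw [Set.indicator_of_notMem (by exact hv'), Set.indicator_of_notMem (by exact hv), zero_mul]

theorem joint_iff (S : Line x y μ ν) (hc : AlongLine x y) :
    (∀ f : G × H → ℂ, Continuous f →
      (∀ g h k l, f (k * g * k⁻¹, l * h * l⁻¹) = f (g, h)) →
      Tendsto (avg fun v => f (x v, y v)) atTop (𝓝 (∫ g, ∫ h, f (g, h) ∂ν ∂μ))) ↔
    ∀ (n m : ℕ) (π : G →* Matrix.unitaryGroup (Fin n) ℂ)
      (ρ : H →* Matrix.unitaryGroup (Fin m) ℂ), NIrr π → NIrr ρ → ¬ Linked π x ρ y := by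
  constructor
  · intro h n m π ρ h1 h2
    rw [linked_iff (hc.continuation n m π ρ h1 h2 0)]
    refine not_lk_of_joint S (ni_iff.1 h1) (ni_iff.1 h2) ?_
    have h3 := h (fun p => chi π p.1 * chi ρ p.2)
      (((cont_chi h1.1.continuous).comp continuous_fst).mul
        ((cont_chi h2.1.continuous).comp continuous_snd))
      (fun g h k l => by simp only [chi_cls])
    rw [avg_eq] at h3
    have h4 : ∫ g, ∫ h, chi π g * chi ρ h ∂ν ∂μ = 0 := by
      have h5 : ∀ g, ∫ h, chi π g * chi ρ h ∂ν = 0 := by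
        intro g
        rw [integral_const_mul, int_chi h2.1.continuous h2.1.schur h2.2, mul_zero]
      simp only [h5]
      simp
    rw [h4] at h3
    exact h3
  · intro h f hf hcl
    rw [avg_eq]
    refine S.joint (fun n m π ρ h1 h2 => ?_) hf hcl
    rw [← linked_iff (hc.continuation n m π ρ (ni_iff.2 h1) (ni_iff.2 h2) 0)]
    exact h n m π ρ (ni_iff.2 h1) (ni_iff.2 h2)

theorem pair_of (S : Line x y μ ν) (hc : AlongLine x y)
    (h : ∀ (n m : ℕ) (π : G →* Matrix.unitaryGroup (Fin n) ℂ)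
      (ρ : H →* Matrix.unitaryGroup (Fin m) ℂ), NIrr π → NIrr ρ → ¬ Linked π x ρ y)
    {f : G → ℂ} {f' : H → ℂ} (h1 : Continuous f) (h2 : Continuous f')
    (h3 : ∀ g k, f (k * g * k⁻¹) = f g) (h4 : ∀ g k, f' (k * g * k⁻¹) = f' g) :
    Tendsto (mn fun v => f (x v) * f' (y v)) atTop (𝓝 ((∫ g, f g ∂μ) * ∫ g, f' g ∂ν)) := by
  have h5 := (joint_iff S hc).2 h (fun p => f p.1 * f' p.2)
    ((h1.comp continuous_fst).mul (h2.comp continuous_snd))
    (fun g h k l => by simp only [h3, h4])
  rw [avg_eq] at h5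
  have e : ∫ g, ∫ h, f g * f' h ∂ν ∂μ = (∫ g, f g ∂μ) * ∫ g, f' g ∂ν := by
    have e1 : ∀ g, ∫ h, f g * f' h ∂ν = f g * ∫ h, f' h ∂ν := fun g => integral_const_mul _ _
    simp only [e1]
    exact integral_mul_const _ _
  rw [e] at h5
  exact h5

end

section

variable {K : Type} [Field K] [NumberField K]
variable {I : Type} [Fintype I] [DecidableEq I] {G : I → Type} [∀ i, Group (G i)]
  [∀ i, TopologicalSpace (G i)] [∀ i, IsTopologicalGroup (G i)] [∀ i, CompactSpace (G i)]
  [∀ i, MeasurableSpace (G i)] [∀ i, BorelSpace (G i)] {μ : ∀ i, Measure (G i)}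
  [∀ i, IsProbabilityMeasure (μ i)] [∀ i, (μ i).IsHaarMeasure]
  {x : ∀ i, HeightOneSpectrum (𝓞 K) → G i}

theorem card_of {T : Finset I} {n : I → ℕ}
    {π : ∀ i, G i →* Matrix.unitaryGroup (Fin (n i)) ℂ} (h : Supp T π) :
    Nat.card {i // ∃ g, π i g ≠ 1} = T.card := by
  have h1 : ∀ i, (∃ g, π i g ≠ 1) ↔ i ∈ T := by
    intro i
    constructor
    · rintro ⟨g, hg⟩
      by_contra hi
      exact hg (h.triv i hi g)
    · exact fun hi => (h.ni i hi).nt
  rw [Nat.card_congr (Equiv.subtypeEquivRight h1), Nat.card_eq_fintype_card, Fintype.card_coe]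

theorem irr_of {T : Finset I} {n : I → ℕ}
    {π : ∀ i, G i →* Matrix.unitaryGroup (Fin (n i)) ℂ} (h : Supp T π) (i : I) :
    IsIrreducible (π i) := by
  by_cases hi : i ∈ T
  · exact (ni_iff.2 (h.ni i hi)).1
  · have hn := h.dim i hi
    refine ⟨h.cont i, fun A _ => ?_, by omega⟩
    have hs : Subsingleton (Fin (n i)) := by
      rw [hn]
      infer_instance
    have h0 : 0 < n i := by omega
    refine ⟨A ⟨0, h0⟩ ⟨0, h0⟩, ?_⟩
    ext a b
    rw [Subsingleton.elim a ⟨0, h0⟩, Subsingleton.elim b ⟨0, h0⟩]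
    simp

theorem fh_of (hp : Pw x μ) (h : FamAlongLine x) : FH x μ where
  pw := hp
  ct := fun T hT n π hπ τ => h.continuation n π (irr_of hπ) (by rw [card_of hπ]; exact hT) τ
  one := fun T hT π hπ τ => by
    obtain ⟨Λ, h1, h2⟩ := h.oneDim π (fun i => hπ.cont i) (by
      have := card_of (n := fun _ => 1) hπ
      rw [this]
      exact hT) τ
    exact ⟨Λ, h1.1, h1.2, h2⟩

end

end Bridge

/-- **The lemma of Goursat and Ribet for Frobenius laws.**  Let `K` be a number field and, for `i` in a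
finite set `I`, let `G_i` be a compact group with Haar probability measure `μ_i` and let `x_i(v) ∈ G_i` for
the primes `v` of `K` be such that the classes of the `x_i(v)` are equidistributed.

I. (Goursat)  Let `i ≠ j` be such that all `L(π ⊠ ρ, s)`, with nontrivial irreducible representations `π`
of `G_i` and `ρ` of `G_j`, are meromorphic in a neighbourhood of `s = 1`.
If the order `k` at `s = 1` is not zero, then it is `1` or `-1`, `π` and `ρ` have the same dimension,
their characters have absolute values with the same moments, and for `δ > 0` the set of the primes with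
`|χ_π(x_i(v)) + k conj χ_ρ(x_j(v))| > δ` has analytic density zero.  For linked pairs the character of
one member is determined by that of the other, and the multiplicities of tensor products agree.  There are
closed normal subgroups `N` of `G_i` and `M` of `G_j`, such that `π` (or `ρ`) is linked to some `ρ` (or
`π`) if and only if it is trivial on `N` (or on `M`).

II. (natural density)  Suppose that there are continuations to neighbourhoods of all points of `Re s = 1`,
and no zeros and poles at `1 + iτ`, `τ ≠ 0`, if `π` and `ρ` are one-dimensional of infinite order.  Then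
there are none for all `π` and `ρ`; the averages of `f(x_i(v), x_j(v))` converge for all continuous class
functions `f` on `G_i × G_j`; for `f = χ_π χ_ρ` to `-k`, where `k` is the order at `s = 1`, and for
`|χ_π + k conj χ_ρ|²` to zero if `k ≠ 0`.  They converge to the Haar integrals of the `f` for all `f` if
and only if there is no linked pair.

III. (Ribet)  Suppose that II applies to all `i ≠ j` and that the `L`-functions of the families of
irreducible representations `π_i` with at least three nontrivial members have continuations to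
neighbourhoods of the points of `Re s = 1`, without zeros and poles there if all `π_i` are
one-dimensional.  Then the `x_i` are independent if and only if there is no linked pair for any
`i ≠ j`. -/
theorem result (K : Type) [Field K] [NumberField K] (I : Type) [Fintype I] [DecidableEq I]
    (G : I → Type) [∀ i, Group (G i)] [∀ i, TopologicalSpace (G i)]
    [∀ i, IsTopologicalGroup (G i)] [∀ i, CompactSpace (G i)] [∀ i, T2Space (G i)]
    [∀ i, MeasurableSpace (G i)] [∀ i, BorelSpace (G i)] (μ : ∀ i, Measure (G i))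
    [∀ i, IsProbabilityMeasure (μ i)] [∀ i, (μ i).IsHaarMeasure]
    (x : ∀ i, HeightOneSpectrum (𝓞 K) → G i) (hx : ∀ i, Equidistributed (x i) (μ i)) :
    (∀ i j, i ≠ j → NearOne (x i) (x j) →
      (∀ (n m : ℕ) (π : G i →* Matrix.unitaryGroup (Fin n) ℂ)
        (ρ : G j →* Matrix.unitaryGroup (Fin m) ℂ), NIrr π → NIrr ρ → ∀ k : ℤ, k ≠ 0 →
        HasOrder (LPair π (x i) ρ (x j)) 0 k → |k| = 1 ∧ n = m ∧
          (∀ e : ℕ, ∫ g, ‖tr π g‖ ^ (2 * e) ∂(μ i) = ∫ g, ‖tr ρ g‖ ^ (2 * e) ∂(μ j)) ∧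
          ∀ δ : ℝ, 0 < δ → DensityZero {v | δ < ‖tr π (x i v) + k * conj (tr ρ (x j v))‖}) ∧
      (∀ (n m m' : ℕ) (π : G i →* Matrix.unitaryGroup (Fin n) ℂ)
        (ρ : G j →* Matrix.unitaryGroup (Fin m) ℂ) (ρ' : G j →* Matrix.unitaryGroup (Fin m') ℂ),
        NIrr π → NIrr ρ → NIrr ρ' → Linked π (x i) ρ (x j) → Linked π (x i) ρ' (x j) →
        tr ρ = tr ρ') ∧
      (∀ (n n' m : ℕ) (π : G i →* Matrix.unitaryGroup (Fin n) ℂ)
        (π' : G i →* Matrix.unitaryGroup (Fin n') ℂ) (ρ : G j →* Matrix.unitaryGroup (Fin m) ℂ),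
        NIrr π → NIrr π' → NIrr ρ → Linked π (x i) ρ (x j) → Linked π' (x i) ρ (x j) →
        tr π = tr π') ∧
      (∀ (n m : Fin 3 → ℕ) (π : ∀ a, G i →* Matrix.unitaryGroup (Fin (n a)) ℂ)
        (ρ : ∀ a, G j →* Matrix.unitaryGroup (Fin (m a)) ℂ) (k : Fin 3 → ℤ),
        (∀ a, NIrr (π a) ∧ NIrr (ρ a) ∧ k a ≠ 0 ∧
          HasOrder (LPair (π a) (x i) (ρ a) (x j)) 0 (k a)) →
        ∫ g, tr (π 0) g * tr (π 1) g * tr (π 2) g ∂(μ i) =
          ∫ g, tr (ρ 0) g * tr (ρ 1) g * tr (ρ 2) g ∂(μ j) ∧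
        (∫ g, tr (π 0) g * tr (π 1) g * tr (π 2) g ∂(μ i) ≠ 0 → k 0 * k 1 * k 2 = -1)) ∧
      ∃ (N : Subgroup (G i)) (M : Subgroup (G j)), N.Normal ∧ M.Normal ∧
        IsClosed (N : Set (G i)) ∧ IsClosed (M : Set (G j)) ∧
        (∀ (n : ℕ) (π : G i →* Matrix.unitaryGroup (Fin n) ℂ), NIrr π →
          ((∀ g ∈ N, π g = 1) ↔ ∃ (m : ℕ) (ρ : G j →* Matrix.unitaryGroup (Fin m) ℂ),
            NIrr ρ ∧ Linked π (x i) ρ (x j))) ∧
        ∀ (m : ℕ) (ρ : G j →* Matrix.unitaryGroup (Fin m) ℂ), NIrr ρ →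
          ((∀ g ∈ M, ρ g = 1) ↔ ∃ (n : ℕ) (π : G i →* Matrix.unitaryGroup (Fin n) ℂ),
            NIrr π ∧ Linked π (x i) ρ (x j))) ∧
    (∀ i j, i ≠ j → AlongLine (x i) (x j) →
      (∀ (n m : ℕ) (π : G i →* Matrix.unitaryGroup (Fin n) ℂ)
        (ρ : G j →* Matrix.unitaryGroup (Fin m) ℂ), NIrr π → NIrr ρ →
        ∀ τ : ℝ, τ ≠ 0 → HasOrder (LPair π (x i) ρ (x j)) τ 0) ∧
      (∀ f : G i × G j → ℂ, Continuous f →
        (∀ g h k l, f (k * g * k⁻¹, l * h * l⁻¹) = f (g, h)) →
        ∃ c, Tendsto (avg fun v => f (x i v, x j v)) atTop (𝓝 c)) ∧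
      (∀ (n m : ℕ) (π : G i →* Matrix.unitaryGroup (Fin n) ℂ)
        (ρ : G j →* Matrix.unitaryGroup (Fin m) ℂ), NIrr π → NIrr ρ → ∀ k : ℤ,
        HasOrder (LPair π (x i) ρ (x j)) 0 k →
        Tendsto (avg fun v => tr π (x i v) * tr ρ (x j v)) atTop (𝓝 (-(k : ℂ))) ∧
        (k ≠ 0 → Tendsto (avg fun v =>
          ((‖tr π (x i v) + k * conj (tr ρ (x j v))‖ ^ 2 : ℝ) : ℂ)) atTop (𝓝 0))) ∧
      ((∀ f : G i × G j → ℂ, Continuous f →
        (∀ g h k l, f (k * g * k⁻¹, l * h * l⁻¹) = f (g, h)) →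
        Tendsto (avg fun v => f (x i v, x j v)) atTop (𝓝 (∫ g, ∫ h, f (g, h) ∂(μ j) ∂(μ i)))) ↔
        ∀ (n m : ℕ) (π : G i →* Matrix.unitaryGroup (Fin n) ℂ)
          (ρ : G j →* Matrix.unitaryGroup (Fin m) ℂ), NIrr π → NIrr ρ →
          ¬ Linked π (x i) ρ (x j))) ∧
    ((∀ i j, i ≠ j → AlongLine (x i) (x j)) → FamAlongLine x →
      ((∀ f : ∀ i, G i → ℂ, (∀ i, IsClass (f i)) →
        Tendsto (avg fun v => ∏ i, f i (x i v)) atTop (𝓝 (∏ i, ∫ g, f i g ∂(μ i)))) ↔
        ∀ i j, i ≠ j → ∀ (n m : ℕ) (π : G i →* Matrix.unitaryGroup (Fin n) ℂ)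
          (ρ : G j →* Matrix.unitaryGroup (Fin m) ℂ), NIrr π → NIrr ρ →
          ¬ Linked π (x i) ρ (x j))) := by
  refine ⟨fun i j hij hN => ?_, fun i j hij hL => ?_, fun hL hF => ?_⟩
  · have S := sit_of' (hx i) (hx j) hN
    have hlk : ∀ {n m : ℕ} {π : G i →* Matrix.unitaryGroup (Fin n) ℂ}
        {ρ : G j →* Matrix.unitaryGroup (Fin m) ℂ}, NIrr π → NIrr ρ →
        (Linked π (x i) ρ (x j) ↔ Pool.Agent.HX6.GO.Lk (x i) (x j) π ρ) := fun h1 h2 =>
      linked_iff (hN _ _ _ _ h1 h2)
    refine ⟨fun n m π ρ h1 h2 k hk ho => ?_, fun n m m' π ρ ρ' h1 h2 h3 h4 h5 => ?_,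
      fun n n' m π π' ρ h1 h2 h3 h4 h5 => ?_, fun n m π ρ k h => ?_, ?_⟩
    · obtain ⟨e1, e2, -⟩ := (ord_of ho).edge (law_of (hx i)) (law_of (hx j)) (ni_iff.1 h1)
        (ni_iff.1 h2) hk
      refine ⟨e1, Pool.Agent.TH553.ST.dim_eq h1.1.continuous h2.1.continuous e2, fun e => ?_,
        fun δ hδ => density_of (hx i) (hx j) h1 h2 hk ho hδ⟩
      have := e2 e
      simp only [← pow_mul] at this
      exact this
    · exact S.uniq (ni_iff.1 h1) (ni_iff.1 h2) (ni_iff.1 h3) ((hlk h1 h2).1 h4) ((hlk h1 h3).1 h5)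
    · exact S.swap.uniq (ni_iff.1 h3) (ni_iff.1 h1) (ni_iff.1 h2) ((hlk h1 h3).1 h4).swap
        ((hlk h2 h3).1 h5).swap
    · exact S.mult (ni_iff.1 (h 0).1) (ni_iff.1 (h 1).1) (ni_iff.1 (h 2).1) (ni_iff.1 (h 0).2.1)
        (ni_iff.1 (h 1).2.1) (ni_iff.1 (h 2).2.1) (ord_of (h 0).2.2.2) (ord_of (h 1).2.2.2)
        (ord_of (h 2).2.2.2) (h 0).2.2.1 (h 1).2.2.1 (h 2).2.2.1
    · refine ⟨Pool.Agent.HX6.GO.kerN (x i) (x j), Pool.Agent.HX6.GO.kerN (x j) (x i),
        Pool.Agent.HX6.GO.kerN_normal, Pool.Agent.HX6.GO.kerN_normal,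
        Pool.Agent.HX6.GO.kerN_closed, Pool.Agent.HX6.GO.kerN_closed,
        fun n π hπ => ⟨fun h => ?_, fun h => ?_⟩, fun m ρ hρ => ⟨fun h => ?_, fun h => ?_⟩⟩
      · obtain ⟨m, ρ, h1, h2⟩ := Pool.Agent.HX6.GO.exists_lk S (ni_iff.1 hπ) h
        exact ⟨m, ρ, ni_iff.2 h1, (hlk hπ (ni_iff.2 h1)).2 h2⟩
      · obtain ⟨m, ρ, h1, h2⟩ := h
        exact fun g hg => hg n π (ni_iff.1 hπ) ⟨m, ρ, ni_iff.1 h1, (hlk hπ h1).1 h2⟩
      · obtain ⟨n, π, h1, h2⟩ := Pool.Agent.HX6.GO.exists_lk S.swap (ni_iff.1 hρ) h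
        exact ⟨n, π, ni_iff.2 h1, (hlk (ni_iff.2 h1) hρ).2 h2.swap⟩
      · obtain ⟨n, π, h1, h2⟩ := h
        exact fun g hg => hg m ρ (ni_iff.1 hρ) ⟨n, π, ni_iff.1 h1, ((hlk h1 hρ).1 h2).swap⟩
  · have S := line_of (hx i) (hx j) hL
    refine ⟨fun n m π ρ h1 h2 τ hτ => ?_, fun f hf hcl => ?_, fun n m π ρ h1 h2 k hk => ?_,
      joint_iff S hL⟩
    · obtain ⟨Λ, h3⟩ := hL.continuation n m π ρ h1 h2 τ
      obtain ⟨k, h4, h5⟩ := (ct_iff.1 h3).ord
      refine ⟨Λ, h3, ?_⟩
      rw [h4, S.off (ni_iff.1 h1) (ni_iff.1 h2) hτ h5]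
    · rw [avg_eq]
      exact S.law_ex hf hcl
    · rw [avg_eq, avg_eq]
      exact ⟨S.avg (ni_iff.1 h1) (ni_iff.1 h2) (ord_of hk),
        fun h0 => S.sq (ni_iff.1 h1) (ni_iff.1 h2) (ord_of hk) h0⟩
  · have S : ∀ i j, i ≠ j → Pool.Agent.HX6.GO.Line (x i) (x j) (μ i) (μ j) := fun i j hij =>
      line_of (hx i) (hx j) (hL i j hij)
    constructor
    · intro h i j hij n m π ρ h1 h2
      rw [linked_iff ((hL i j hij).continuation n m π ρ h1 h2 0)]
      refine Pool.Agent.HX6.GO.not_lk_of_joint (S i j hij) (ni_iff.1 h1) (ni_iff.1 h2) ?_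
      have h3 := h (Function.update (Function.update (fun l => fun _ => (1 : ℂ)) i (tr π)) j (tr ρ))
        (fun l => by
          by_cases hlj : l = j
          · subst hlj
            rw [Function.update_self]
            exact ⟨Pool.Agent.TH553.ST.cont_chi h2.1.continuous,
              fun g h => Pool.Agent.TH553.ST.chi_cls ρ g h⟩
          · rw [Function.update_of_ne hlj]
            by_cases hli : l = i
            · subst hli
              rw [Function.update_self]
              exact ⟨Pool.Agent.TH553.ST.cont_chi h1.1.continuous,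
                fun g h => Pool.Agent.TH553.ST.chi_cls π g h⟩
            · rw [Function.update_of_ne hli]
              exact ⟨continuous_const, fun _ _ => rfl⟩)
      have e1 : ∀ v, ∏ l, (Function.update (Function.update (fun l => fun _ => (1 : ℂ)) i (tr π)) j
          (tr ρ) : ∀ l, G l → ℂ) l (x l v) =
          Pool.Agent.TH553.ST.chi π (x i v) * Pool.Agent.TH553.ST.chi ρ (x j v) := by
        intro v
        rw [Pool.Agent.HX6.GO.prod_one_of (T := {i, j}) (fun l hl => by
          rw [Finset.mem_insert, Finset.mem_singleton, not_or] at hl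
          rw [Function.update_of_ne hl.2, Function.update_of_ne hl.1]), Finset.prod_pair hij,
          Function.update_of_ne hij, Function.update_self, Function.update_self]
        rfl
      have e2 : ∏ l, ∫ g, (Function.update (Function.update (fun l => fun _ => (1 : ℂ)) i (tr π)) j
          (tr ρ) : ∀ l, G l → ℂ) l g ∂(μ l) = 0 := by
        refine Finset.prod_eq_zero (Finset.mem_univ j) ?_
        rw [Function.update_self]
        exact Pool.Agent.TH553.ST.int_chi h2.1.continuous h2.1.schur h2.2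
      rw [avg_eq, e2] at h3
      simp only [e1] at h3
      exact h3
    · intro h f hf
      rw [avg_eq]
      refine (fh_of ⟨fun i => law_of (hx i), fun i j hij f f' h1 h2 h3 h4 =>
        pair_of (S i j hij) (hL i j hij) (h i j hij) h1 h2 h3 h4⟩ hF).indep
        (fun i => (hf i).continuous) fun i g k => (hf i).invariant g k

end Pool.Agent.Results.MP_4c4ce6_nt.GoursatRibetForLaws
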