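import Pool.Agent.T2h85.RR.Fin

/-!
# Larsen's alternative for angles at the primes of a number field

`K` is a number field and `θ_v` a real number for every prime `v` of `K`; nothing else is assumed on the
`θ_v`.  In the problem (for instance for an elliptic curve over `K`, or for a family of rank two with
`ψ` alternating) the numbers `e^{± i θ_v}` are the eigenvalues of `s_v`; for the finitely many bad primes
`θ_v` is arbitrary.  Let `L(Sym^m, s)` be the Euler product of the `m`-th symmetric power.

The criterion of Serre for the Sato-Tate law asks for the continuation of all `L(Sym^m, s)` with `m ≥ 1` to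
`Re s ≥ 1` without zeros and poles.  The theorem starts from much less: a meromorphic continuation of
each `L(Sym^m, s)` to some (small) neighbourhood of the point `s = 1`, with any zeros and poles, except
that two of the L-functions, `L(Sym^2, s)` and `L(Sym^4, s)`, have no pole at `s = 1`.  Then the `θ_v`
have the Sato-Tate law (for the analytic density), or they have a law with finite support.

For closed subgroups of `SU(2)` (instead of laws of angles) this is the alternative of Larsen for
the fourth moment: no invariants in `Sym^2` and `Sym^4` mean that the group is `SU(2)` or finite.  Here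
no group is given.

If the law does not have finite support, then all zeros and poles on the line `Re s = 1` are excluded,
where there are local meromorphic continuations, and the equidistribution for the natural density follows
if these exist at all points of the line.

The proof: the orders at `s = 1` are integers, hence so are the numbers `a_k = 2 lim (mean of cos (k θ_v))`.
They form a positive definite function on the integers with `a_0 = 2`, so there are vectors `v_k` in a
real Hilbert space with `⟨v_k, v_l⟩ = a_{k-l}`: an infinite system of vectors of square length 2 with
integral scalar products.  All such systems with `|a_k| ≤ 1` for `k ≠ 0` are found with weak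
limits.
-/

set_option autoImplicit false

namespace Pool.Agent.Results.MP_4c4ce6_nt.LarsenAlternative

open NumberField IsDedekindDomain Filter Topology Pool.Agent.T2h85.Angles

/-- **Larsen's alternative for laws of angles.**  Let `K` be a number field and `θ_v ∈ ℝ` for the primes `v`
of `K`.  Suppose that every `L(Sym^m, s)`, `m ≥ 1`, has a meromorphic continuation `Λ_m` to some
neighbourhood of `s = 1`, and that `L(Sym^2, s)` and `L(Sym^4, s)` have no pole at `s = 1`.  Then either
the `θ_v` have an analytic law with finite support in the rational multiples of `π`, or

* they have the Sato-Tate law for the analytic density;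
* `L(Sym^m, s)` has no zero and no pole at `1 + iτ`, for all `m ≥ 1` and all real `τ` for which it has a
  meromorphic continuation to a neighbourhood of `1 + iτ`;
* if it has one for all `m ≥ 1` and all `τ`, then they have the Sato-Tate law for the natural
  density. -/
theorem result (K : Type) [Field K] [NumberField K] (θ : HeightOneSpectrum (𝓞 K) → ℝ)
    (Λ : ℕ → ℂ → ℂ) (hΛ : ∀ m, 1 ≤ m → IsContinuation θ m 0 (Λ m))
    (h2 : 0 ≤ meromorphicOrderAt (Λ 2) 1) (h4 : 0 ≤ meromorphicOrderAt (Λ 4) 1) :
    FiniteLaw θ ∨
    (AnalyticLaw θ satoTate ∧
      (∀ m, 1 ≤ m → ∀ τ : ℝ, ∀ M : ℂ → ℂ, IsContinuation θ m τ M →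
        meromorphicOrderAt M (1 + τ * Complex.I) = 0) ∧
      ((∀ m, 1 ≤ m → ∀ τ : ℝ, ∃ M, IsContinuation θ m τ M) → NaturalLaw θ satoTate)) := by
  obtain ⟨o, a, ho, ha, ha1, ha2, ha3⟩ := moments hΛ
  have ho2 : 0 ≤ o 2 := by
    rw [ho 2 (by norm_num)] at h2
    exact_mod_cast h2
  have ho4 : 0 ≤ o 4 := by
    rw [ho 4 (by norm_num)] at h4
    exact_mod_cast h4
  have ha4 : a 4 = -o 4 + o 2 := by
    have := ha3 2 (by norm_num)
    simpa using this
  rcases ha.two (by omega) (by omega) with h | ⟨h, h'⟩
  · exact Or.inl (fin_of h)
  · right
    have hst : Pool.Agent.T2h85.RR.STMom a := ⟨ha.zero, h'⟩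
    refine ⟨?_, fun m hm τ M hM => ha.order_zero hst hm (cont_of hM), fun hall => ?_⟩
    · rw [← wave_satoTate]
      exact analytic_of h
    · rw [← wave_satoTate]
      refine natural_of fun f hf => Pool.Agent.T2h85.RR.nat_law (fun m hm => ?_) hf
      exact ha.avg hst hm fun τ => by
        obtain ⟨M, hM⟩ := hall m hm τ
        exact ⟨M, cont_of hM⟩

end Pool.Agent.Results.MP_4c4ce6_nt.LarsenAlternative
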