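import Pool.Agent.HX6.ST.P

/-!
# Exactly which laws of Frobenius tori are compatible with meromorphy at the edge

Let `K` be a number field and let `θ_{v,1}, …, θ_{v,b}` be points of the torus `T^r = (ℝ/ℤ)^r` for every
prime `v` of `K`; nothing else is assumed on them.  For `n ∈ ℤ^r` let
`L(n, s) = ∏_v ∏_i (1 - e(⟨n, θ_{v,i}⟩) q_v^{-s})⁻¹`.

In the problem the `θ_{v,i}` are the conjugates `w θ_v` of a point `θ_v` of a maximal torus `T^r` of a
compact connected group (the identity component of the Sato-Tate group) which represents the class of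
Frobenius at `v`, for the elements `w` of the Weyl group, and `b` is the order of the Weyl group.  Then
`∑_w e(⟨n, w θ⟩)` is an integral combination of irreducible characters, and all `L(n, s)` are products of
powers (with integer exponents) of `L`-functions of irreducible representations, whose continuation the
problem predicts.  For `r = 1` one can also take for `θ_{v,1}, …, θ_{v,b}` the angles of the `b` normalized
eigenvalues of Frobenius in a compatible family of dimension `b`.

The theorem determines what can be deduced from meromorphic continuation near `s = 1`, or near the line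
`Re s = 1`, alone, for all these families at once.

* If all `L(n, s)`, `n ≠ 0`, are meromorphic near the point `s = 1` (with any zeros and poles there), then
  the `θ_{v,i}` have a law `μ` for the analytic density, and `μ` is a sum of at most `b` components.  Here
  a component is a measure `p m_H ≠ 0`, where `m_H` is the Haar probability measure of a closed subgroup
  `H` of `T^r` and `p` is a trigonometric polynomial with integer coefficients which is real and not
  negative on `H`.
* Dichotomy: either all but finitely many `L(n, s)` have neither zero nor pole at `s = 1`, and then `μ` has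
  a trigonometric polynomial as density on the whole torus; or there is one relation
  `⟨κ, θ⟩ = 0`, `κ ≠ 0`, which is satisfied, up to an arbitrarily small error, by some `θ_{v,i}` for
  a set of primes `v` of lower density at least `1/b`.  In the first case for every `κ ≠ 0` the primes
  which satisfy the relation up to `δ` have upper density tending to zero with `δ`.
* If all `L(n, s)`, `n ≠ 0`, are meromorphic near the line `Re s = 1`, without zeros and poles on it outside
  of `s = 1`, then `μ` is the law for natural density.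
* Conversely every sum of components of total mass `b` is the law of a family `θ_{v,i}` for which all
  `L(n, s)` are meromorphic near the line `Re s = 1`, without zeros and poles on it outside of `s = 1`.  One
  can even prescribe how the `θ_{v,i}` depend on each other: if `X` is a compact space with a probability
  measure `ρ` and `w_1, …, w_b : X → T^r` are continuous maps such that the sum of the images of `ρ` is a
  sum of components, then there are such `θ_{v,i} = w_i(x_v)` with `x_v ∈ X`.  (For a Weyl group `W`: all sums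
  of components of mass `|W|` which are invariant under `W` are laws of families of orbits.)

So the laws compatible with meromorphy at the edge are exactly the sums of components of total mass `b`.
-/

set_option autoImplicit false

namespace Pool.Agent.Results.MP_4c4ce6_nt.StructureOfLaws

open NumberField IsDedekindDomain Filter Topology MeasureTheory UnitAddTorus

section

variable {K : Type} [Field K] [NumberField K] {r b : ℕ}

/-- The average of `φ` over the primes of `K` of norm at most `N`. -/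
noncomputable def avg (φ : HeightOneSpectrum (𝓞 K) → ℂ) (N : ℕ) : ℂ :=
  (∑ᶠ w : {w : HeightOneSpectrum (𝓞 K) // Ideal.absNorm w.asIdeal ≤ N}, φ w.1) /
    (Nat.card {w : HeightOneSpectrum (𝓞 K) // Ideal.absNorm w.asIdeal ≤ N} : ℂ)

/-- `φ` has the analytic mean value `c`: the quotient of `∑_v φ(v) q_v^{-1-ε}` by `log (1/ε)` tends to
`c` for `ε → 0`. -/
def HasMean (φ : HeightOneSpectrum (𝓞 K) → ℂ) (c : ℂ) : Prop :=
  Tendsto (fun ε : ℝ => (∑' v, φ v * ((Ideal.absNorm v.asIdeal : ℕ) : ℂ) ^ (-(1 + ε : ℂ))) /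
    (Real.log (1 / ε) : ℂ)) (𝓝[>] 0) (𝓝 c)

/-- The quotient of `∑_{v ∈ S} q_v^{-1-ε}` by `log (1/ε)`; the lower and the upper limit for `ε → 0` are
the lower and the upper analytic density of `S`. -/
noncomputable def density (S : Set (HeightOneSpectrum (𝓞 K))) (ε : ℝ) : ℝ :=
  (∑' v, S.indicator (fun v => ((Ideal.absNorm v.asIdeal : ℕ) : ℝ) ^ (-(1 + ε))) v) /
    Real.log (1 / ε)

/-- `Λ` is a meromorphic continuation of `L` to a neighbourhood of `1 + iτ`. -/
def IsContinuation (L : ℂ → ℂ) (τ : ℝ) (Λ : ℂ → ℂ) : Prop :=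
  MeromorphicAt Λ (1 + τ * Complex.I) ∧
    ∀ᶠ s in 𝓝 ((1 : ℂ) + τ * Complex.I), (1 : ℝ) < s.re → Λ s = L s

/-- `L` has a meromorphic continuation to a neighbourhood of `1 + iτ`, of order `k` at `1 + iτ`. -/
def HasOrder (L : ℂ → ℂ) (τ : ℝ) (k : ℤ) : Prop :=
  ∃ Λ, IsContinuation L τ Λ ∧ meromorphicOrderAt Λ (1 + τ * Complex.I) = k

/-- The Euler product `L(n, s) = ∏_v ∏_i (1 - e(⟨n, θ_{v,i}⟩) q_v^{-s})⁻¹`. -/
noncomputable def LFun (θ : HeightOneSpectrum (𝓞 K) → Fin b → UnitAddTorus (Fin r))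
    (n : Fin r → ℤ) (s : ℂ) : ℂ :=
  ∏' v, (∏ i, (1 - mFourier n (θ v i) * ((Ideal.absNorm v.asIdeal : ℕ) : ℂ) ^ (-s)))⁻¹

/-- All `L(n, s)`, `n ≠ 0`, have a meromorphic continuation to a neighbourhood of `s = 1`. -/
def NearOne (θ : HeightOneSpectrum (𝓞 K) → Fin b → UnitAddTorus (Fin r)) : Prop :=
  ∀ n, n ≠ 0 → ∃ Λ, IsContinuation (LFun θ n) 0 Λ

/-- All `L(n, s)`, `n ≠ 0`, have a meromorphic continuation to a neighbourhood of every point of
`Re s = 1`, without zero and pole at the points different from `1`. -/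
def AlongLine (θ : HeightOneSpectrum (𝓞 K) → Fin b → UnitAddTorus (Fin r)) : Prop :=
  ∀ n, n ≠ 0 → ∀ τ : ℝ, ∃ k : ℤ, HasOrder (LFun θ n) τ k ∧ (τ ≠ 0 → k = 0)

/-- The exceptional `n ≠ 0`: it is not true that `L(n, s)` continues to a neighbourhood of `s = 1` with
order zero at `1`. -/
def Exceptional (θ : HeightOneSpectrum (𝓞 K) → Fin b → UnitAddTorus (Fin r)) :
    Set (Fin r → ℤ) := {n | n ≠ 0 ∧ ¬ HasOrder (LFun θ n) 0 0}

/-- The primes `v` for which some `θ_{v,i}` satisfies the relation `⟨κ, θ⟩ = 0` up to `δ`. -/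
def Near (θ : HeightOneSpectrum (𝓞 K) → Fin b → UnitAddTorus (Fin r)) (κ : Fin r → ℤ) (δ : ℝ) :
    Set (HeightOneSpectrum (𝓞 K)) := {v | ∃ i, ‖mFourier κ (θ v i) - 1‖ < δ}

/-- `m` is the Haar probability measure of the closed subgroup `H` (as a measure on the torus). -/
structure IsHaar (H : AddSubgroup (UnitAddTorus (Fin r))) (m : Measure (UnitAddTorus (Fin r))) :
    Prop where
  closed : IsClosed (H : Set (UnitAddTorus (Fin r)))
  prob : IsProbabilityMeasure m
  null : m (H : Set (UnitAddTorus (Fin r)))ᶜ = 0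
  inv : ∀ x ∈ H, m.map (fun y => x + y) = m

/-- The trigonometric polynomial `∑_{n ∈ F} c_n e(⟨n, x⟩)` with integer coefficients. -/
noncomputable def trig (F : Finset (Fin r → ℤ)) (c : (Fin r → ℤ) → ℤ)
    (x : UnitAddTorus (Fin r)) : ℂ := ∑ n ∈ F, (c n : ℂ) * mFourier n x

/-- `ν` is a component on `H`: `ν` is not zero and has a trigonometric polynomial with integer
coefficients, real and not negative on `H`, as density for the Haar probability measure of the closed
subgroup `H`. -/
def IsComponent (H : AddSubgroup (UnitAddTorus (Fin r))) (ν : Measure (UnitAddTorus (Fin r))) :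
    Prop :=
  ν ≠ 0 ∧ ∃ (m : Measure (UnitAddTorus (Fin r))) (F : Finset (Fin r → ℤ))
    (c : (Fin r → ℤ) → ℤ), IsHaar H m ∧ (∀ x ∈ H, (trig F c x).im = 0 ∧ 0 ≤ (trig F c x).re) ∧
    ν = m.withDensity fun x => ENNReal.ofReal (trig F c x).re

/-- `μ` is a sum of `k` components. -/
def IsSum (k : ℕ) (μ : Measure (UnitAddTorus (Fin r))) : Prop :=
  ∃ (ν : Fin k → Measure (UnitAddTorus (Fin r))) (H : Fin k → AddSubgroup (UnitAddTorus (Fin r))),
    (∀ j, IsComponent (H j) (ν j)) ∧ μ = ∑ j, ν j

end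

section Bridge

set_option linter.unusedSectionVars false

open Pool.Agent.TH553.ST Pool.Agent.TH553.RS Pool.Agent.W540.BE Pool.Agent.HX6.GO
open Pool.Agent.HX6.ST (IsComp HaarOn Am)

variable {K : Type} [Field K] [NumberField K] {r b : ℕ}

theorem avg_eq (g : HeightOneSpectrum (𝓞 K) → ℂ) : avg g = mn g := by
  funext N
  have hs : ∀ v, v ∈ upto K N ↔ Ideal.absNorm v.asIdeal ≤ N := fun v => mem_upto
  let e : {v : HeightOneSpectrum (𝓞 K) // Ideal.absNorm v.asIdeal ≤ N} ≃ (upto K N) :=
    Equiv.subtypeEquivRight fun v => (hs v).symm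
  have hfin : Finite {v : HeightOneSpectrum (𝓞 K) // Ideal.absNorm v.asIdeal ≤ N} :=
    Finite.of_equiv _ e.symm
  unfold avg mn
  have h1 : (∑ᶠ v : {v : HeightOneSpectrum (𝓞 K) // Ideal.absNorm v.asIdeal ≤ N}, g v.1) =
      ∑ v ∈ upto K N, g v := by
    rw [← Finset.sum_coe_sort, ← finsum_eq_sum_of_fintype, ← finsum_comp_equiv e]
    rfl
  have h2 : Nat.card {v : HeightOneSpectrum (𝓞 K) // Ideal.absNorm v.asIdeal ≤ N} =
      (upto K N).card := by
    rw [Nat.card_congr e, Nat.card_eq_fintype_card, Fintype.card_coe]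
  rw [h1, h2, Complex.real_smul, div_eq_inv_mul]
  push_cast
  rfl

theorem comp_iff {H : AddSubgroup (UnitAddTorus (Fin r))} {ν : Measure (UnitAddTorus (Fin r))} :
    IsComponent H ν ↔ IsComp H ν := by
  constructor
  · rintro ⟨h0, m, F, c, h1, h2, h3⟩
    exact ⟨h0, m, F, c, h1.closed, ⟨h1.prob, h1.null, h1.inv⟩, h2, h3⟩
  · rintro ⟨h0, m, F, c, h1, h2, h3, h4⟩
    exact ⟨h0, m, F, c, ⟨h1, h2.prob, h2.null, h2.inv⟩, h3, h4⟩

theorem sum_iff {k : ℕ} {μ : Measure (UnitAddTorus (Fin r))} :
    IsSum k μ ↔ Pool.Agent.HX6.ST.IsSum μ k := by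
  constructor
  · rintro ⟨ν, H, h1, h2⟩
    exact ⟨ν, H, fun j => comp_iff.1 (h1 j), h2⟩
  · rintro ⟨ν, H, h1, h2⟩
    exact ⟨ν, H, fun j => comp_iff.2 (h1 j), h2⟩

theorem e1 : (1 : ℂ) + ((0 : ℝ) : ℂ) * Complex.I = 1 := by simp

/-- the mean value for a given order -/
theorem mean_of_order {θ : HeightOneSpectrum (𝓞 K) → Fin b → UnitAddTorus (Fin r)}
    {n : Fin r → ℤ} {k : ℤ} (h : HasOrder (LFun θ n) 0 k) :
    Am (fun v => ∑ i, mFourier n (θ v i)) (-(k : ℂ)) := by
  obtain ⟨Λ, ⟨h1, h2⟩, h3⟩ := h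
  rw [e1] at h1 h2 h3
  exact Pool.Agent.HX6.ST.am_ord (α := fun v i => mFourier n (θ v i))
    (fun v i => Pool.Agent.HX6.ST.norm_mF n _) h1 h2 h3

theorem exists_order {θ : HeightOneSpectrum (𝓞 K) → Fin b → UnitAddTorus (Fin r)}
    {n : Fin r → ℤ} {τ : ℝ} (h : ∃ Λ, IsContinuation (LFun θ n) τ Λ) :
    ∃ k, HasOrder (LFun θ n) τ k := by
  obtain ⟨Λ, h1, h2⟩ := h
  obtain ⟨k, h3, -⟩ := order_LA (α := fun v i => mFourier n (θ v i)) (τ := τ)
    (fun v i => Pool.Agent.HX6.ST.norm_mF n _) h1 h2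
  exact ⟨k, Λ, ⟨h1, h2⟩, h3⟩

theorem natural {θ : HeightOneSpectrum (𝓞 K) → Fin b → UnitAddTorus (Fin r)}
    (hθ : AlongLine θ) {μ : Measure (UnitAddTorus (Fin r))} [IsFiniteMeasure μ]
    (hlaw : ∀ h : C(UnitAddTorus (Fin r), ℂ), Am (fun v => ∑ i, h (θ v i)) (∫ x, h x ∂μ))
    (h : C(UnitAddTorus (Fin r), ℂ)) :
    Tendsto (mn fun v => ∑ i, h (θ v i)) atTop (𝓝 (∫ x, h x ∂μ)) := by
  refine Pool.Agent.HX6.ST.nat_law θ μ (fun n => ?_) h
  by_cases hn : n = 0
  · have h1 : (fun v : HeightOneSpectrum (𝓞 K) => ∑ i, mFourier n (θ v i)) =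
        fun _ => (b : ℂ) := by
      funext v
      rw [hn, mFourier_zero]
      simp
    have h2 := hlaw (mFourier n)
    rw [h1] at h2
    have h3 := h2.unique (Pool.Agent.HX6.ST.am_const _)
    unfold Pool.Agent.HX6.ST.fc
    rw [h1, h3]
    exact mn_const_lim _
  · obtain ⟨k, hk, -⟩ := hθ n hn 0
    have h3 := (hlaw (mFourier n)).unique (mean_of_order hk)
    unfold Pool.Agent.HX6.ST.fc
    rw [h3]
    refine taub_ord (α := fun v i => mFourier n (θ v i))
      (fun v i => Pool.Agent.HX6.ST.norm_mF n _) (L := LFun θ n) (fun s _ => rfl) k fun τ => ?_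
    by_cases hτ : τ = 0
    · obtain ⟨Λ, h4, h5⟩ := hk
      rw [hτ, if_pos rfl]
      exact ⟨Λ, h4.1, h4.2, h5⟩
    · obtain ⟨k', ⟨Λ, h4, h5⟩, h6⟩ := hθ n hn τ
      rw [if_neg hτ]
      rw [h6 hτ] at h5
      exact ⟨Λ, h4.1, h4.2, h5⟩

end Bridge

/-- **The laws compatible with meromorphy at the edge.**  Let `K` be a number field and `b ≥ 1`.

(I) Let `θ_{v,i} ∈ (ℝ/ℤ)^r`, `1 ≤ i ≤ b`, for the primes `v` of `K` be such that all `L(n, s)`, `n ≠ 0`,
have a meromorphic continuation to a neighbourhood of `s = 1`.  Then there is a measure `μ` of mass `b`, a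
sum of at most `b` components, such that `∑_i h(θ_{v,i})` has the analytic mean value `∫ h dμ` for
all continuous `h`; the order of `L(n, s)` at `1` is `-∫ e(⟨n, x⟩) dμ`.  Either the exceptional set is
finite, `μ` is a component on the whole torus, and the near relations have small upper density; or the
exceptional set is infinite and there is `κ ≠ 0` such that for every `δ > 0` the set of the `v` for which some
`θ_{v,i}` satisfies the relation `κ` up to `δ` has lower density at least `1/b`.

(II) If all `L(n, s)`, `n ≠ 0`, have meromorphic continuations along `Re s = 1` without zeros and poles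
outside of `1`, then the analytic mean values are the mean values for natural density.

(III) If `X` is a compact space with probability measure `ρ` and the `w_i : X → (ℝ/ℤ)^r` are
continuous and the sum of the images of `ρ` is a sum of components, then there are `x_v ∈ X` such that
`θ_{v,i} = w_i(x_v)` satisfies the hypotheses of (II) and has this measure as its law. -/
theorem result (K : Type) [Field K] [NumberField K] (r b : ℕ) (hb : 0 < b) :
    (∀ θ : HeightOneSpectrum (𝓞 K) → Fin b → UnitAddTorus (Fin r), NearOne θ →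
      ∃ μ : Measure (UnitAddTorus (Fin r)), μ Set.univ = b ∧ (∃ k, k ≤ b ∧ IsSum k μ) ∧
        (∀ h : UnitAddTorus (Fin r) → ℂ, Continuous h →
          HasMean (fun v => ∑ i, h (θ v i)) (∫ x, h x ∂μ)) ∧
        (∀ n, n ≠ 0 → ∃ k : ℤ, HasOrder (LFun θ n) 0 k ∧ ∫ x, mFourier n x ∂μ = -(k : ℂ)) ∧
        (((Exceptional θ).Finite ∧ IsComponent ⊤ μ ∧ ∀ κ, κ ≠ 0 → ∀ η : ℝ, 0 < η →
            ∃ δ : ℝ, 0 < δ ∧ ∀ᶠ ε in 𝓝[>] 0, density (Near θ κ δ) ε < η) ∨
          ((Exceptional θ).Infinite ∧ ∃ κ, κ ≠ 0 ∧ ∀ δ : ℝ, 0 < δ → ∀ η : ℝ, 0 < η →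
            ∀ᶠ ε in 𝓝[>] 0, 1 / (b : ℝ) - η < density (Near θ κ δ) ε))) ∧
    (∀ (θ : HeightOneSpectrum (𝓞 K) → Fin b → UnitAddTorus (Fin r))
      (μ : Measure (UnitAddTorus (Fin r))), AlongLine θ → IsFiniteMeasure μ →
      (∀ h : UnitAddTorus (Fin r) → ℂ, Continuous h →
        HasMean (fun v => ∑ i, h (θ v i)) (∫ x, h x ∂μ)) →
      ∀ h : UnitAddTorus (Fin r) → ℂ, Continuous h →
        Tendsto (avg fun v => ∑ i, h (θ v i)) atTop (𝓝 (∫ x, h x ∂μ))) ∧
    (∀ (X : Type) [TopologicalSpace X] [CompactSpace X] [MeasurableSpace X] [BorelSpace X]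
      (ρ : Measure X) [IsProbabilityMeasure ρ] (w : Fin b → X → UnitAddTorus (Fin r)),
      (∀ i, Continuous (w i)) → (∃ k, IsSum k (∑ i, ρ.map (w i))) →
      ∃ x : HeightOneSpectrum (𝓞 K) → X, AlongLine (fun v i => w i (x v)) ∧
        ∀ h : UnitAddTorus (Fin r) → ℂ, Continuous h →
          Tendsto (avg fun v => ∑ i, h (w i (x v))) atTop
            (𝓝 (∫ y, h y ∂(∑ i, ρ.map (w i))))) := by
  refine ⟨fun θ hθ => ?_, fun θ μ hθ hμ hlaw h hh => ?_, ?_⟩
  · obtain ⟨μ, h1, h2, h3, h4⟩ := Pool.Agent.HX6.ST.law_of_near θ (fun n hn => by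
      obtain ⟨Λ, h1, h2⟩ := hθ n hn
      rw [e1] at h1 h2
      exact ⟨Λ, h1, h2⟩)
    have hreal : μ.real Set.univ = b := by
      unfold Pool.Agent.HX6.ST.fc at h3
      rw [mFourier_zero] at h3
      simp only [ContinuousMap.one_apply, integral_const, Complex.real_smul, mul_one] at h3
      exact_mod_cast h3
    have hμ0 : μ ≠ 0 := by
      rintro rfl
      simp only [measureReal_zero, Pi.zero_apply] at hreal
      have : (0 : ℝ) < b := by exact_mod_cast hb
      linarith
    have hord : ∀ n, n ≠ 0 → ∃ k : ℤ, HasOrder (LFun θ n) 0 k ∧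
        ∫ x, mFourier n x ∂μ = -(k : ℂ) := by
      intro n hn
      obtain ⟨k, hk⟩ := exists_order (hθ n hn)
      exact ⟨k, hk, (h4 (mFourier n)).unique (mean_of_order hk)⟩
    have hexc : ∀ n, n ∈ Exceptional θ ↔ n ≠ 0 ∧ Pool.Agent.HX6.ST.fc mFourier μ n ≠ 0 := by
      intro n
      constructor
      · rintro ⟨hn, h5⟩
        refine ⟨hn, fun h6 => ?_⟩
        obtain ⟨k, hk, h7⟩ := hord n hn
        unfold Pool.Agent.HX6.ST.fc at h6
        rw [h7, neg_eq_zero] at h6
        have h8 : k = 0 := by exact_mod_cast h6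
        rw [h8] at hk
        exact h5 hk
      · rintro ⟨hn, h5⟩
        refine ⟨hn, fun h6 => h5 ?_⟩
        have h7 := (h4 (mFourier n)).unique (mean_of_order h6)
        unfold Pool.Agent.HX6.ST.fc
        rw [h7]
        simp
    have hset : {n | Pool.Agent.HX6.ST.fc mFourier μ n ≠ 0} ⊆ insert 0 (Exceptional θ) := by
      intro n hn
      by_cases h0 : n = 0
      · left; exact h0
      · right; exact (hexc n).2 ⟨h0, hn⟩
    obtain ⟨k, hk, hk'⟩ := Pool.Agent.HX6.ST.isSum_of_int h2 hreal.le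
    refine ⟨μ, ?_, ⟨k, hk, sum_iff.2 hk'⟩, fun h hh => h4 ⟨h, hh⟩, hord, ?_⟩
    · have h5 := ENNReal.ofReal_toReal (measure_ne_top μ Set.univ)
      change ENNReal.ofReal (μ.real Set.univ) = μ Set.univ at h5
      rw [← h5, hreal, ENNReal.ofReal_natCast]
    · by_cases hfin : (Exceptional θ).Finite
      · left
        have hc : Pool.Agent.HX6.ST.IsComp ⊤ μ := Pool.Agent.HX6.ST.top_of_finite hμ0 h2
          ((hfin.insert 0).subset hset)
        refine ⟨hfin, comp_iff.2 hc, fun κ hκ η hη => ?_⟩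
        exact Pool.Agent.HX6.ST.upper_dens θ h4 (Pool.Agent.HX6.ST.comp_null hc hκ) hη
      · right
        refine ⟨hfin, ?_⟩
        obtain ⟨κ, hκ, h5⟩ := Pool.Agent.HX6.ST.rel_of_infinite h2 hreal.le (fun h6 => hfin
          (h6.subset fun n hn => ((hexc n).1 hn).2))
        exact ⟨κ, hκ, fun δ hδ η hη => Pool.Agent.HX6.ST.lower_dens θ hb h4 h5 hδ hη⟩
  · rw [avg_eq]
    exact natural hθ (fun h => hlaw h h.continuous) ⟨h, hh⟩
  · intro X _ _ _ _ ρ _ w hw hsum
    obtain ⟨k, hk⟩ := hsum
    have hkk := sum_iff.1 hk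
    have hfinm : IsFiniteMeasure (∑ i, ρ.map (w i)) := by
      have : ∀ i, IsFiniteMeasure (ρ.map (w i)) := fun i => inferInstance
      infer_instance
    choose c hc using hkk.int
    have hcc : ∀ n, ∑ i, ∫ x, mFourier n (w i x) ∂ρ = c n := by
      intro n
      rw [← hc n, Pool.Agent.HX6.ST.fc_sum _ _ fun i _ => inferInstance]
      refine Finset.sum_congr rfl fun i _ => ?_
      unfold Pool.Agent.HX6.ST.fc
      rw [integral_map (hw i).measurable.aemeasurable
        (mFourier n).continuous.aestronglyMeasurable]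
    obtain ⟨x, hx⟩ := Pool.Agent.HX6.ST.realize (K := K) (ρ := ρ)
      (fun i => (⟨w i, hw i⟩ : C(X, UnitAddTorus (Fin r)))) c hcc
    have hcn : ∀ n τ, ∃ k : ℤ, HasOrder (LFun (fun v i => w i (x v)) n) τ k ∧
        (k = if τ = 0 then -c n else 0) := by
      intro n τ
      obtain ⟨Λ, h1, h2, h3⟩ := hx n τ
      refine ⟨if τ = 0 then -c n else 0, ⟨Λ, ⟨h1, h2⟩, ?_⟩, rfl⟩
      exact h3
    have hal : AlongLine (fun v i => w i (x v)) := by
      intro n _ τ
      obtain ⟨k, h1, h2⟩ := hcn n τ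
      exact ⟨k, h1, fun hτ => by rw [h2, if_neg hτ]⟩
    refine ⟨x, hal, fun h hh => ?_⟩
    rw [avg_eq]
    -- the analytic law
    obtain ⟨μ, h1, h2, h3⟩ := Pool.Agent.HX6.ST.law_measure (fun v i => w i (x v))
      (fun n => (c n : ℂ)) (fun n => by
        obtain ⟨k, h1, h2⟩ := hcn n 0
        have h3 := mean_of_order h1
        rw [h2, if_pos rfl] at h3
        push_cast at h3
        rw [neg_neg] at h3
        exact h3)
    have h4 : μ = ∑ i, ρ.map (w i) := by
      refine Pool.Agent.HX6.ST.meas_ext fun f => ?_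
      exact Pool.Agent.HX6.ST.integral_eq_of_fc Pool.Agent.HX6.ST.chars_mF _ _
        (fun n => by rw [h2, hc]) f
    rw [← h4]
    exact natural hal h3 ⟨h, hh⟩

end Pool.Agent.Results.MP_4c4ce6_nt.StructureOfLaws
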